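import Pool.Agent.H64.CHN.SlabS

/-!
# Chains of copies: the determinant is small only with small probability
-/

set_option autoImplicit false

namespace Pool.CHN

open Finset Real Matrix
open Pool.Agent.H49.Ent Pool.Agent.H32.Dense Pool.STK Pool.POT
open Pool.K2S (Pe)

section minors

variable {Ω : Type} {d₀ : ℕ}

/-- The coordinates, indexed by the natural numbers. -/
noncomputable def xe (X : ℕ) (ec : Fin d₀ → Ω → ℤ) (ω : Ω) (i : ℕ) : ℝ :=
  if h : i < d₀ + 1 then Xv X ec ω ⟨i, h⟩ else 0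

theorem xe_zero (X : ℕ) (ec : Fin d₀ → Ω → ℤ) (ω : Ω) : xe X ec ω 0 = 1 := by
  unfold xe
  rw [dif_pos (Nat.succ_pos d₀)]
  rfl

theorem xe_succ (X : ℕ) (ec : Fin d₀ → Ω → ℤ) (ω : Ω) (k : Fin d₀) :
    xe X ec ω (k + 1) = (ec k ω : ℝ) / 2 ^ X := by
  unfold xe
  rw [dif_pos (by have := k.2; omega)]
  have e : (⟨(k : ℕ) + 1, by have := k.2; omega⟩ : Fin (d₀ + 1)) = k.succ := Fin.ext rfl
  rw [e]
  rfl

/-- The leading minors. -/
noncomputable def Gm (X : ℕ) (ec : Fin d₀ → Ω → ℤ) (m : ℕ) (L : ℕ → Ω) : ℝ :=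
  (Matrix.of fun i j : Fin m => xe X ec (L j) i).det

/-- The cofactors of the last line. -/
noncomputable def cf (X : ℕ) (ec : Fin d₀ → Ω → ℤ) (m : ℕ) (L : ℕ → Ω) (i : ℕ) : ℝ :=
  if h : i < m + 1 then (-1) ^ (i + m) *
    (Matrix.of fun a b : Fin m => xe X ec (L b) ((⟨i, h⟩ : Fin (m + 1)).succAbove a)).det else 0

variable {X : ℕ} {ec : Fin d₀ → Ω → ℤ}

theorem Gm_succ (m : ℕ) (L : ℕ → Ω) :
    Gm X ec (m + 1) L = ∑ i ∈ range (m + 1), cf X ec m L i * xe X ec (L m) i := by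
  rw [Finset.sum_range]
  unfold Gm
  rw [Matrix.det_succ_column _ (Fin.last m)]
  refine Finset.sum_congr rfl fun i _ => ?_
  have e : cf X ec m L i = (-1) ^ ((i : ℕ) + m) *
      (Matrix.of fun a b : Fin m => xe X ec (L b) (i.succAbove a)).det := by
    unfold cf
    rw [dif_pos i.2]
  rw [e, Fin.val_last]
  have e2 : ((Matrix.of fun i j : Fin (m + 1) => xe X ec (L j) i).submatrix i.succAbove
      (Fin.last m).succAbove) = Matrix.of fun a b : Fin m => xe X ec (L b) (i.succAbove a) := by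
    ext a b
    simp [Fin.succAbove_last]
  rw [e2]
  simp only [Matrix.of_apply, Fin.val_last]
  ring

theorem cf_last (m : ℕ) (L : ℕ → Ω) : cf X ec m L m = Gm X ec m L := by
  unfold cf Gm
  rw [dif_pos (Nat.lt_succ_self m), ← two_mul, pow_mul]
  have e : (⟨m, Nat.lt_succ_self m⟩ : Fin (m + 1)) = Fin.last m := Fin.ext rfl
  rw [e]
  simp [Fin.succAbove_last]

theorem cf_big {m i : ℕ} (h : m < i) (L : ℕ → Ω) : cf X ec m L i = 0 := by
  unfold cf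
  rw [dif_neg (by omega)]

theorem Gm_congr {m : ℕ} {L L' : ℕ → Ω} (h : ∀ j, j < m → L j = L' j) :
    Gm X ec m L = Gm X ec m L' := by
  unfold Gm
  congr 2
  funext i j
  rw [h j j.2]

theorem cf_congr {m : ℕ} {L L' : ℕ → Ω} (h : ∀ j, j < m → L j = L' j) (i : ℕ) :
    cf X ec m L i = cf X ec m L' i := by
  unfold cf
  by_cases hi : i < m + 1
  · rw [dif_pos hi, dif_pos hi]
    congr 3
    funext a b
    rw [h b b.2]
  · rw [dif_neg hi, dif_neg hi]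

theorem Gm_one (L : ℕ → Ω) : Gm X ec 1 L = 1 := by
  unfold Gm
  rw [Matrix.det_unique]
  exact xe_zero X ec (L 0)

theorem Gm_full (L : ℕ → Ω) : Gm X ec (d₀ + 1) L = (Am X ec L).det := by
  unfold Gm Am
  congr 2
  funext i j
  unfold xe
  rw [dif_pos i.2]

/-- **The slab of the last line.** -/
theorem slab_pt {m : ℕ} (hm : m < d₀) {L L' : ℕ → Ω} {b : Ω} {ρ : ℝ} (hρ : 0 < ρ)
    (hG : ρ ^ m ≤ |Gm X ec (m + 1) L|) (hL : ∀ j, j < m + 1 → L' j = L j)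
    (hb : L' (m + 1) = b) (h : |Gm X ec (m + 2) L'| < ρ ^ (m + 1)) :
    |∑ k : Fin d₀, (cf X ec (m + 1) L (k + 1) / Gm X ec (m + 1) L) * ((ec k b : ℝ) / 2 ^ X) -
      (-(cf X ec (m + 1) L 0 / Gm X ec (m + 1) L))| ≤ ρ := by
  have hGp : 0 < |Gm X ec (m + 1) L| := lt_of_lt_of_le (pow_pos hρ m) hG
  have hne : Gm X ec (m + 1) L ≠ 0 := abs_pos.1 hGp
  have e1 : Gm X ec (m + 2) L' = ∑ i ∈ range (m + 2), cf X ec (m + 1) L i * xe X ec b i := by
    rw [Gm_succ (m + 1) L', hb]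
    refine Finset.sum_congr rfl fun i _ => ?_
    rw [cf_congr hL]
  have e2 : ∑ k : Fin d₀, (cf X ec (m + 1) L (k + 1) / Gm X ec (m + 1) L) *
      ((ec k b : ℝ) / 2 ^ X) = ∑ k ∈ range (m + 1),
      (cf X ec (m + 1) L (k + 1) / Gm X ec (m + 1) L) * xe X ec b (k + 1) := by
    have e3 : ∑ k : Fin d₀, (cf X ec (m + 1) L (k + 1) / Gm X ec (m + 1) L) *
        ((ec k b : ℝ) / 2 ^ X) = ∑ k ∈ range d₀,
        (cf X ec (m + 1) L (k + 1) / Gm X ec (m + 1) L) * xe X ec b (k + 1) := by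
      rw [Finset.sum_range]
      refine Finset.sum_congr rfl fun k _ => ?_
      rw [xe_succ]
    rw [e3]
    symm
    refine Finset.sum_subset (range_subset_range.2 (by omega)) fun k _ hk => ?_
    rw [Finset.mem_range, not_lt] at hk
    rw [cf_big (by omega), zero_div, zero_mul]
  have e4 : (∑ k : Fin d₀, (cf X ec (m + 1) L (k + 1) / Gm X ec (m + 1) L) *
      ((ec k b : ℝ) / 2 ^ X) - (-(cf X ec (m + 1) L 0 / Gm X ec (m + 1) L))) *
      Gm X ec (m + 1) L = Gm X ec (m + 2) L' := by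
    rw [e1, Finset.sum_range_succ', e2, xe_zero, sub_neg_eq_add, add_mul, Finset.sum_mul]
    congr 1
    · refine Finset.sum_congr rfl fun k _ => ?_
      field_simp
    · field_simp
  have e5 := congrArg abs e4
  rw [abs_mul] at e5
  rw [← e5] at h
  by_contra hc
  push Not at hc
  have h6 : ρ * ρ ^ m ≤ |∑ k : Fin d₀, (cf X ec (m + 1) L (k + 1) / Gm X ec (m + 1) L) *
      ((ec k b : ℝ) / 2 ^ X) - (-(cf X ec (m + 1) L 0 / Gm X ec (m + 1) L))| *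
      |Gm X ec (m + 1) L| :=
    mul_le_mul hc.le hG (pow_pos hρ m).le (abs_nonneg _)
  have h7 : ρ ^ (m + 1) = ρ * ρ ^ m := by ring
  linarith

end minors

theorem nonempty_Tn {Ω : Type} [Nonempty Ω] : ∀ n : ℕ, Nonempty (Tn Ω n)
  | 0 => inferInstanceAs (Nonempty Ω)
  | n + 1 => by
    obtain ⟨a⟩ := nonempty_Tn (Ω := Ω) n
    obtain ⟨b⟩ := (inferInstance : Nonempty Ω)
    exact ⟨(a, b)⟩

section

variable {Ω β Λ υ σ ζ : Type} [Fintype Ω] {p : Ω → ℝ} {d₀ : ℕ} {B : Ω → β} {ln : Ω → Λ}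
  {Z : Ω → ζ} {Y : Ω → υ} {S : Ω → σ} {t : Ω → ℤ} {ec Pc : Fin d₀ → Ω → ℤ}
  {ap : Fin d₀ → Ω → ℝ} {X : ℕ} {C ρ c₁ d : ℝ}

/-- One step. -/
theorem slab_step (H : Chb p B ln Z Y S t ec Pc ap X C ρ c₁ d) (hρ : 0 < ρ) {k : ℕ} (hk : k < d₀)
    (n : ℕ) (hn : 2 * (k + 1) ≤ n) :
    Pe (Qc p ln B n) (fun w => ρ ^ k ≤ |Gm X ec (k + 1) fun j => pt n w (2 * j)| ∧
      |Gm X ec (k + 2) fun j => pt n w (2 * j)| < ρ ^ (k + 1)) ≤ c₁ := by
  classical
  have hp := H.law.nonneg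
  obtain ⟨r, rfl⟩ : ∃ r, n = 2 * k + 1 + 1 + r := ⟨n - (2 * k + 2), by omega⟩
  have hΩ : Nonempty Ω := by
    by_contra hc
    rw [not_nonempty_iff] at hc
    have h1 := H.law.sum_one
    rw [Finset.univ_eq_empty, Finset.sum_empty] at h1
    exact zero_ne_one h1
  have hT : Nonempty (Tn Ω (2 * k + 1)) := nonempty_Tn (Ω := Ω) _
  obtain ⟨φ, hφ⟩ : ∃ φ : Tn Ω (2 * k + 1) → Ω → Prop, φ = fun a b =>
      ρ ^ k ≤ |Gm X ec (k + 1) fun j => pt (2 * k + 1) a (2 * j)| ∧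
      |Gm X ec (k + 2) fun j => if j = k + 1 then b else pt (2 * k + 1) a (2 * j)| <
        ρ ^ (k + 1) := ⟨_, rfl⟩
  -- reduction to the first points
  have h1 : Pe (Qc p ln B (2 * k + 1 + 1 + r))
      (fun w => ρ ^ k ≤ |Gm X ec (k + 1) fun j => pt (2 * k + 1 + 1 + r) w (2 * j)| ∧
        |Gm X ec (k + 2) fun j => pt (2 * k + 1 + 1 + r) w (2 * j)| < ρ ^ (k + 1)) ≤
      Pe (Qc p ln B (2 * k + 1 + 1)) (fun w => φ w.1 w.2) := by
    have h2 := Im.Pe (Qn_tkm (c := lk ln B) hp (n := 2 * k + 1 + 1) r) (fun w => φ w.1 w.2)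
    rw [← h2]
    refine Pe_mono' (Qn_nonneg hp _) fun w _ hw => ?_
    rw [hφ]
    have e1 : ∀ j, j < k + 1 → pt (2 * k + 1 + 1 + r) w (2 * j) =
        pt (2 * k + 1) (tkm r w : Tn Ω (2 * k + 1 + 1)).1 (2 * j) := by
      intro j hj
      rw [← pt_tkm (n := 2 * k + 1 + 1) r (2 * j) (by omega) w, pt_old (by omega)]
    have e2 : pt (2 * k + 1 + 1 + r) w (2 * (k + 1)) = (tkm r w : Tn Ω (2 * k + 1 + 1)).2 := by
      rw [← pt_tkm (n := 2 * k + 1 + 1) r (2 * (k + 1)) (by omega) w]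
      exact pt_last (2 * k + 1) _
    refine ⟨?_, ?_⟩
    · have e3 : Gm X ec (k + 1) (fun j => pt (2 * k + 1 + 1 + r) w (2 * j)) =
          Gm X ec (k + 1) (fun j => pt (2 * k + 1) (tkm r w : Tn Ω (2 * k + 1 + 1)).1 (2 * j)) :=
        Gm_congr e1
      rw [← e3]
      exact hw.1
    · have e3 : Gm X ec (k + 2) (fun j => pt (2 * k + 1 + 1 + r) w (2 * j)) =
          Gm X ec (k + 2) (fun j => if j = k + 1 then (tkm r w : Tn Ω (2 * k + 1 + 1)).2 else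
            pt (2 * k + 1) (tkm r w : Tn Ω (2 * k + 1 + 1)).1 (2 * j)) := by
        refine Gm_congr fun j hj => ?_
        by_cases h : j = k + 1
        · rw [if_pos h, h]
          exact e2
        · rw [if_neg h]
          exact e1 j (by omega)
      rw [← e3]
      exact hw.2
  refine h1.trans ?_
  -- selection of the past
  obtain ⟨s, hs⟩ := sel_snd (q₁ := Qn p (lk ln B) (2 * k + 1)) (q₂ := p)
    (Z₁ := fun w => lk ln B (2 * k + 1) (pt (2 * k + 1) w (2 * k + 1)))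
    (Z₂ := lk ln B (2 * k + 1)) (Qn_nonneg hp _) hp (Qn_hZ hp _) φ
  refine hs.trans ?_
  obtain ⟨Ls, hLs⟩ : ∃ Ls : β → ℕ → Ω, Ls = fun b j =>
      pt (2 * k + 1) (s (Sum.inr b)) (2 * j) := ⟨_, rfl⟩
  obtain ⟨nn, hnn⟩ : ∃ nn : β → Fin d₀ → ℝ, nn = fun b (i : Fin d₀) =>
      if ρ ^ k ≤ |Gm X ec (k + 1) (Ls b)| then
        cf X ec (k + 1) (Ls b) ((i : ℕ) + 1) / Gm X ec (k + 1) (Ls b) else 1 := ⟨_, rfl⟩
  refine le_trans (Pe_mono' hp fun ω _ hω => ?_)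
    (H.pl nn (fun b => -(cf X ec (k + 1) (Ls b) 0 / Gm X ec (k + 1) (Ls b))) fun b => ?_)
  · rw [hφ, lk_odd ln B (by omega)] at hω
    obtain ⟨g1, g2⟩ := hω
    have g1' : ρ ^ k ≤ |Gm X ec (k + 1) (Ls (B ω))| := by
      rw [hLs]
      exact g1
    have h3 := slab_pt (X := X) (ec := ec) hk (L := Ls (B ω))
      (L' := fun j => if j = k + 1 then ω else Ls (B ω) j) (b := ω) hρ g1'
      (fun j hj => if_neg (by omega)) (if_pos rfl) (by rw [hLs]; exact g2)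
    have e4 : ∀ i : Fin d₀, nn (B ω) i =
        cf X ec (k + 1) (Ls (B ω)) (i + 1) / Gm X ec (k + 1) (Ls (B ω)) := by
      intro i
      rw [hnn]
      exact if_pos g1'
    simp only [e4]
    exact h3
  · refine ⟨⟨k, hk⟩, ?_⟩
    rw [hnn]
    beta_reduce
    split_ifs with h4
    · have h5 : 0 < |Gm X ec (k + 1) (Ls b)| := lt_of_lt_of_le (pow_pos hρ k) h4
      rw [cf_last, div_self (abs_pos.1 h5), abs_one]
    · rw [abs_one]

theorem slab_all (H : Chb p B ln Z Y S t ec Pc ap X C ρ c₁ d) (hρ : 0 < ρ) : ∀ m : ℕ, m ≤ d₀ →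
    ∀ n : ℕ, 2 * m ≤ n →
    Pe (Qc p ln B n) (fun w => |Gm X ec (m + 1) fun j => pt n w (2 * j)| < ρ ^ m) ≤ m * c₁
  | 0, _, n, _ => by
    classical
    rw [Pe_Ex]
    simp [Gm_one, Ex]
  | m + 1, hm, n, hn => by
    have ih := slab_all H hρ m (by omega) n (by omega)
    have h1 := slab_step H hρ (k := m) (by omega) n hn
    have hQ := Qn_nonneg (c := lk ln B) H.law.nonneg n
    have h2 : Pe (Qc p ln B n) (fun w => |Gm X ec (m + 1 + 1) fun j => pt n w (2 * j)| <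
        ρ ^ (m + 1)) ≤ Pe (Qc p ln B n)
        (fun w => |Gm X ec (m + 1) fun j => pt n w (2 * j)| < ρ ^ m ∨
          (ρ ^ m ≤ |Gm X ec (m + 1) fun j => pt n w (2 * j)| ∧
      |Gm X ec (m + 2) fun j => pt n w (2 * j)| < ρ ^ (m + 1))) := by
      refine Pe_mono' hQ fun w _ hw => ?_
      rcases lt_or_ge |Gm X ec (m + 1) fun j => pt n w (2 * j)| (ρ ^ m) with h | h
      · exact Or.inl h
      · exact Or.inr ⟨h, hw⟩
    refine h2.trans ((Pe_or hQ _ _).trans ?_)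
    push_cast
    linarith

end

/-- **(slabs)** -/
theorem slab : ∀ d₀ : ℕ, SlabStmt d₀ := by
  intro d₀ Ω β Λ υ σ ζ _ p B ln Z Y S t ec Pc ap X C ρ c₁ d H hρ _ n hn
  have h := slab_all H hρ d₀ le_rfl n hn
  refine le_trans (le_of_eq ?_) h
  congr 1
  funext w
  rw [Gm_full]

end Pool.CHN
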