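import Pool.Agent.H97.CHN.Cov

/-!
# Chains of copies: the displacement along the chain, the cells
-/

set_option autoImplicit false

namespace Pool.CHN

open Finset Real Matrix
open Pool.Agent.H49.Ent Pool.Agent.H32.Dense Pool.STK Pool.POT Pool.TQ
open Pool.K2S (Pe)
open Pool.LPX (Crd NFz NFu tp Dp idx)

variable {Ω β Λ υ σ ζ : Type} {d₀ : ℕ}

/-- The mass outside the large cells. -/
theorem bad_le' {Γ κ : Type} [Fintype Γ] {q : Γ → ℝ} (hq : ∀ w, 0 ≤ q w) (I : Γ → κ)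
    (s : Finset κ) (hI : ∀ w, I w ∈ s) {ϖ : ℝ} (hϖ : 0 ≤ ϖ) (P : κ → Prop)
    (hP : ∀ i ∈ s, ϖ ≤ Pe q (fun w => I w = i) → P i) :
    Pe q (fun w => ¬ P (I w)) ≤ s.card * ϖ := by
  classical
  have h1 : Pe q (fun w => ¬ P (I w)) = ∑ i ∈ s, if P i then 0 else Pe q (fun w => I w = i) := by
    have e1 : ∀ w, q w * (if ¬ P (I w) then (1 : ℝ) else 0) =
        ∑ i ∈ s, if P i then 0 else q w * (if I w = i then 1 else 0) := by
      intro w
      rw [Finset.sum_eq_single_of_mem (I w) (hI w)]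
      · by_cases h : P (I w)
        · simp [h]
        · simp [h]
      · intro i _ hi
        rw [if_neg (Ne.symm hi), mul_zero, ite_self]
    rw [Pe_Ex]
    unfold Ex
    have e2 : ∀ x : Γ → ℝ, (∀ w, x w = ∑ i ∈ s, if P i then 0 else
        q w * (if I w = i then 1 else 0)) → ∑ w, x w = ∑ w, ∑ i ∈ s, if P i then 0 else
        q w * (if I w = i then 1 else 0) := fun x hx => Finset.sum_congr rfl fun w _ => hx w
    rw [e2 _ fun w => ?_, Finset.sum_comm]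
    rotate_left
    · rw [← e1 w]
      congr 1
      beta_reduce
      split_ifs <;> rfl
    refine Finset.sum_congr rfl fun i _ => ?_
    by_cases h : P i
    · simp [h]
    · simp only [h, if_false]
      rw [Pe_Ex]
      unfold Ex
      refine Finset.sum_congr rfl fun w _ => ?_
      congr 1
  rw [h1]
  have h2 : ∀ i ∈ s, (if P i then 0 else Pe q (fun w => I w = i)) ≤ ϖ := by
    intro i hi
    split_ifs with h
    · exact hϖ
    · by_contra hc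
      exact h (hP i hi (not_le.1 hc).le)
  refine (Finset.sum_le_sum h2).trans ?_
  rw [Finset.sum_const, nsmul_eq_mul]

/-- The error of the displacement. -/
noncomputable def Ce (d₀ : ℕ) (C η δ : ℝ) : ℝ :=
  3 * C * (d₀ + 2) + (d₀ + 2) * η + (d₀ + 1) * ((d₀ + 1) * (C * (Ka d₀ C / δ)) * E1 d₀ C)

/-- The bound of the slope. -/
noncomputable def Kb (d₀ : ℕ) (C δ : ℝ) : ℝ :=
  (d₀ + 1) * ((d₀ + 1) * (C * (Ka d₀ C / δ)) * C) + C

/-- A common constant. -/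
noncomputable def Cc (d₀ : ℕ) (C δ : ℝ) : ℝ := Ce d₀ C 0 δ + Kb d₀ C δ

/-- The deficiency of the time. -/
noncomputable def D0 (d₀ X : ℕ) (C δ c d : ℝ) : ℝ :=
  (3 * (d₀ + 1) + 3) * d + (d₀ + 1) * Real.log (2 * R1 d₀ C δ + 1) +
      c * ((d₀ + 1) * (X * Real.log 2))

theorem Kb_nonneg {C δ : ℝ} (hC : 1 ≤ C) (hδ : 0 < δ) : 1 ≤ Kb d₀ C δ := by
  unfold Kb
  have h1 := Ka_one (d₀ := d₀) hC
  have h2 : 0 ≤ (d₀ + 1 : ℝ) * ((d₀ + 1) * (C * (Ka d₀ C / δ)) * C) := by positivity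
  linarith

theorem Ce_nonneg {C η δ : ℝ} (hC : 1 ≤ C) (hη : 0 ≤ η) (hδ : 0 < δ) : 0 ≤ Ce d₀ C η δ := by
  unfold Ce E1
  have h1 := Ka_one (d₀ := d₀) hC
  positivity

theorem Cc_one {C δ : ℝ} (hC : 1 ≤ C) (hδ : 0 < δ) : 1 ≤ Cc d₀ C δ := by
  unfold Cc
  have h1 := Kb_nonneg (d₀ := d₀) hC hδ
  have h2 := Ce_nonneg (d₀ := d₀) (η := 0) hC le_rfl hδ
  linarith

theorem R1_nonneg {C δ : ℝ} (hC : 1 ≤ C) (hδ : 0 < δ) : 0 ≤ R1 d₀ C δ := by
  unfold R1 E1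
  have h1 := Ka_one (d₀ := d₀) hC
  positivity

variable [Fintype Ω] {p : Ω → ℝ} {B : Ω → β} {ln : Ω → Λ} {Z : Ω → ζ} {Y : Ω → υ} {S : Ω → σ}
  {t : Ω → ℤ} {ec Pc : Fin d₀ → Ω → ℤ} {ap : Fin d₀ → Ω → ℝ} {X : ℕ} {C ρ c₁ d : ℝ}

theorem kv_le (H : Chb p B ln Z Y S t ec Pc ap X C ρ c₁ d) (hC : 1 ≤ C) {dv : Ω → ℤ}
    (hdv : ∀ ω, 0 < p ω → |(dv ω : ℝ)| ≤ C * 2 ^ X) {δ : ℝ} (hδ : 0 < δ) {n : ℕ} {w : Tn Ω n}
    (hw : 0 < Qc p ln B n w) (hn : 2 * (d₀ + 1) ≤ n)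
    (hd : δ ≤ |(Am X ec fun j => pt n w (2 * j)).det|) :
    |kv X ec dv fun j => pt n w (2 * j)| ≤ Kb d₀ C δ := by
  have hp := H.law.nonneg
  obtain ⟨hpos, -⟩ := Qn_pos hp _ w hw
  have h1 : ∀ i, |Mv X ec dv (fun j => pt n w (2 * j)) i| ≤ (d₀ + 1) * (C * (Ka d₀ C / δ)) :=
    fun i => Mv_le hC hδ (fun j hj i => (H.P i).siz _ (hpos _ (by omega)))
      (fun j hj => hdv _ (hpos _ (by omega))) hd i
  have h2 : ∀ i, |Xv X ec (pt n w (2 * (d₀ + 1))) i| ≤ C :=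
    fun i => Xv_le hC (fun i => (H.P i).siz _ (hpos _ (by omega))) i
  have h3 : |(dv (pt n w (2 * (d₀ + 1))) : ℝ) / 2 ^ X| ≤ C := by
    rw [abs_div, abs_of_pos (by positivity : (0 : ℝ) < 2 ^ X), div_le_iff₀ (by positivity)]
    exact hdv _ (hpos _ (by omega))
  have hK := Ka_one (d₀ := d₀) hC
  unfold kv Kb
  refine (abs_sub _ _).trans (add_le_add ?_ h3)
  refine (Finset.abs_sum_le_sum_abs _ _).trans ?_
  calc _ ≤ ∑ _i : Fin (d₀ + 1), (d₀ + 1) * (C * (Ka d₀ C / δ)) * C := by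
        refine Finset.sum_le_sum fun i _ => ?_
        rw [abs_mul]
        exact mul_le_mul (h1 i) (h2 i) (abs_nonneg _) (by positivity)
    _ = _ := by
        rw [Finset.sum_const, Finset.card_univ, Fintype.card_fin, nsmul_eq_mul]
        push_cast
        ring

omit [Fintype Ω] in
theorem Wc_v {δT : Type} {v : Ω → δT} {N : ℕ} {w w' : Tn Ω (2 * N + 1)}
    (e : Wc B ec Y v t N w = Wc B ec Y v t N w') {j : ℕ} (hj : j ≤ N) :
    v (pt _ w (2 * j)) = v (pt _ w' (2 * j)) := by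
  unfold Wc at e
  simp only [Prod.mk.injEq] at e
  exact congrFun e.2.1 ⟨j, by omega⟩

/-- The slope and the known part are functions of the condition. -/
theorem det_kv {δT : Type} {v : Ω → δT} (H : Chb p B ln Z Y S t ec Pc ap X C ρ c₁ d)
    {dv : Ω → ℤ} (hv : Det p v dv) :
    Det (Qc p ln B (2 * (d₀ + 1) + 1)) (Wc B ec Y v t (d₀ + 1))
      (fun w => kv X ec dv fun j => pt _ w (2 * j)) := by
  have hp := H.law.nonneg
  intro w w' a b e
  have hA := Wc_Am (X := X) H a b e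
  have hdv : ∀ j, j ≤ d₀ + 1 → dv (pt _ w (2 * j)) = dv (pt _ w' (2 * j)) := fun j hj =>
    hv _ _ ((Qn_pos hp _ w a).1 _ (by omega)) ((Qn_pos hp _ w' b).1 _ (by omega)) (Wc_v e hj)
  have hM : Mv X ec dv (fun j => pt _ w (2 * j)) = Mv X ec dv (fun j => pt _ w' (2 * j)) := by
    unfold Mv
    rw [hA]
    congr 1
    funext j
    rw [hdv j (by have := j.2; omega)]
  beta_reduce
  unfold kv
  rw [hM, Wc_Xv H a b e le_rfl, hdv (d₀ + 1) le_rfl]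

theorem det_Av {δT : Type} {v : Ω → δT} (H : Chb p B ln Z Y S t ec Pc ap X C ρ c₁ d)
    {V dv : Ω → ℤ} (hv : Det p v dv) (w₀ : Ω) :
    Det (Qc p ln B (2 * (d₀ + 1) + 1)) (Wc B ec Y v t (d₀ + 1))
      (Av p B t Pc ap X ec V dv w₀) := by
  have hp := H.law.nonneg
  intro w w' a b e
  have hA := Wc_Am (X := X) H a b e
  have hdv : ∀ j, j ≤ d₀ + 1 → dv (pt _ w (2 * j)) = dv (pt _ w' (2 * j)) := fun j hj =>
    hv _ _ ((Qn_pos hp _ w a).1 _ (by omega)) ((Qn_pos hp _ w' b).1 _ (by omega)) (Wc_v e hj)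
  have hM : Mv X ec dv (fun j => pt _ w (2 * j)) = Mv X ec dv (fun j => pt _ w' (2 * j)) := by
    unfold Mv
    rw [hA]
    congr 1
    funext j
    rw [hdv j (by have := j.2; omega)]
  have e2 := e
  unfold Wc at e2
  simp only [Prod.mk.injEq] at e2
  obtain ⟨et, -, eY, eB, -⟩ := e2
  have eg : gk p B t Pc ap w₀ (B (pt _ w 0)) (pt _ w (2 * (d₀ + 1))) =
      gk p B t Pc ap w₀ (B (pt _ w' 0)) (pt _ w' (2 * (d₀ + 1))) := by
    rw [eB]
    unfold gk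
    congr 1
    funext i
    rw [(H.P i).da _ _ ((Qn_pos hp _ w a).1 _ (by omega)) ((Qn_pos hp _ w' b).1 _ (by omega)) eY]
  unfold Av
  rw [hM, eB, et, hdv (d₀ + 1) le_rfl]
  rw [eB] at eg
  rw [eg]

/-- **The displacement of the last point.** -/
theorem dp_last {δT : Type} {v : Ω → δT} (H : Chb p B ln Z Y S t ec Pc ap X C ρ c₁ d)
    (hC : 1 ≤ C) (w₀ : Ω) {V dv : Ω → ℤ} {av : Ω → ℝ} (hV : Crd p B ln t V dv av X C)
    {dv' : Ω → ℤ} {η : ℝ} (hη : ∀ ω, 0 < p ω → |(dv ω : ℝ) - dv' ω| ≤ η)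
    (hdv : ∀ ω, 0 < p ω → |(dv' ω : ℝ)| ≤ C * 2 ^ X) (hv : Det p v dv') {δ : ℝ} (hδ : 0 < δ)
    {r : Tn Ω (2 * (d₀ + 1) + 1) → ℝ}
    (hr : ∀ w, 0 < r w → 0 < Qc p ln B (2 * (d₀ + 1) + 1) w ∧
      δ ≤ |(Am X ec fun j => pt _ w (2 * j)).det|) :
    Dp r (Wc B ec Y v t (d₀ + 1)) (fun w => t (pt _ w (2 * (d₀ + 1))))
      (fun w => V (pt _ w (2 * (d₀ + 1) + 1))) (Av p B t Pc ap X ec V dv' w₀)
      (fun w => kv X ec dv' fun j => pt _ w (2 * j)) (Ce d₀ C η δ) :=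
  ⟨fun w w' a b e => det_Av H hv w₀ w w' (hr w a).1 (hr w' b).1 e,
    fun w w' a b e => det_kv H hv w w' (hr w a).1 (hr w' b).1 e,
    fun w a => coord_rel H hC w₀ hV dv' hη hdv hδ (hr w a).1 (hr w a).2⟩

/-- The condition of the rows at the last point. -/
theorem det_S {δT : Type} {v : Ω → δT} (H : Chb p B ln Z Y S t ec Pc ap X C ρ c₁ d) :
    Det (Qc p ln B (2 * (d₀ + 1) + 1)) (Wc B ec Y v t (d₀ + 1))
      (fun w => S (pt _ w (2 * (d₀ + 1) + 1))) := by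
  have hp := H.law.nonneg
  intro w w' a b e
  obtain ⟨hpos, -⟩ := Qn_pos hp _ w a
  obtain ⟨hpos', -⟩ := Qn_pos hp _ w' b
  unfold Wc at e
  simp only [Prod.mk.injEq] at e
  obtain ⟨et, -, eY, eB, -⟩ := e
  have h1 := H.lY _ _ (hpos (2 * (d₀ + 1)) (by omega)) (hpos (2 * (d₀ + 1) + 1) le_rfl)
    (same_line hp a (i := d₀ + 1) (by omega))
  have h2 := H.lY _ _ (hpos' (2 * (d₀ + 1)) (by omega)) (hpos' (2 * (d₀ + 1) + 1) le_rfl)
    (same_line hp b (i := d₀ + 1) (by omega))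
  have h3 := H.same_Z a (2 * (d₀ + 1) + 1) le_rfl
  have h4 := H.same_Z b (2 * (d₀ + 1) + 1) le_rfl
  have h5 := H.BZ _ _ (hpos 0 (by omega)) (hpos' 0 (by omega)) eB
  refine H.SY _ _ (hpos _ le_rfl) (hpos' _ le_rfl) ?_
  beta_reduce
  rw [h3, h4, h5, ← h1, ← h2, eY, et]

/-- The cell of the chain. -/
noncomputable def Cl (X : ℕ) (ec : Fin d₀ → Ω → ℤ) (dv : Ω → ℤ) (δ C' : ℝ) (g Nc : ℕ)
    (w : Tn Ω (2 * (d₀ + 1) + 1)) : Prop × ℕ :=
  (δ ≤ |(Am X ec fun j => pt _ w (2 * j)).det|,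
    idx C' g Nc (kv X ec dv fun j => pt _ w (2 * j)))

/-- The total error. -/
noncomputable def Er (d₀ X g Kn : ℕ) (C δ c ϖ' ϖ d : ℝ) : ℝ :=
  d + (1 / ϖ' / Kn + 1 / ϖ' * ϖ) * (X * Real.log 2 + Real.log 5) + Real.log (Kn + 1) +
    D0 d₀ X C δ c d / ϖ' + 2 * g * Real.log 2 + 4 * Real.log (9 * Cc d₀ C δ)

/-- **The size in a large cell, one target.** -/
theorem cell_one (H : Chb p B ln Z Y S t ec Pc ap X C ρ c₁ d) {V dv : Ω → ℤ} {av : Ω → ℝ}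
    (hT : Cht p B ln Z t ec V dv av X C d) {h ϖ : ℝ} (hN : NF1 p V S X h ϖ d) (hC : 1 ≤ C)
    (hh0 : 0 < h) (hh1 : h ≤ 1) (hϖ : 0 ≤ ϖ) (hd : 0 ≤ d) {δ c : ℝ} (hδ : 0 < δ)
    (hsl : Pe (Qc p ln B (2 * (d₀ + 1) + 1))
      (fun w => |(Am X ec fun j => pt _ w (2 * j)).det| < δ) ≤ c) {g Nc Kn : ℕ}
    (hNc : X ≤ Nc * g) (hKn : 0 < Kn) {ϖ' : ℝ} (hϖ' : 0 < ϖ') (i : ℕ)
    (hG : ϖ' ≤ Pe (Qc p ln B (2 * (d₀ + 1) + 1))
      (fun w => Cl X ec dv δ (Cc d₀ C δ) g Nc w = (True, i))) {e : ℝ}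
    (he : Er d₀ X g Kn C δ c ϖ' ϖ d ≤ e * (h * Real.log 2)) : (X : ℝ) - (i * g : ℕ) ≤ e := by
  classical
  have hp := H.law.nonneg
  have hl2 : 0 < Real.log 2 := Real.log_pos (by norm_num)
  obtain ⟨q, hq⟩ : ∃ q, q = Qc p ln B (2 * (d₀ + 1) + 1) := ⟨_, rfl⟩
  have hql : IsLaw q := by rw [hq]; exact Qn_law H.law _
  obtain ⟨G, hGd⟩ : ∃ G : Tn Ω (2 * (d₀ + 1) + 1) → Prop,
    G = fun w => Cl X ec dv δ (Cc d₀ C δ) g Nc w = (True, i) := ⟨_, rfl⟩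
  rw [← hq, ← hGd] at hG
  have hG0 : 0 < Pe q G := lt_of_lt_of_le hϖ' hG
  obtain ⟨W, hW⟩ : ∃ W, W = Wc B ec Y dv t (d₀ + 1) := ⟨_, rfl⟩
  have hC1 := Cc_one (d₀ := d₀) hC hδ
  have hl9 : 0 ≤ Real.log (9 * Cc d₀ C δ) := Real.log_nonneg (by linarith)
  obtain ⟨w₀, -⟩ : ∃ w₀ : Ω, 0 < p w₀ := by
    by_contra hcon
    push Not at hcon
    have h1 := H.law.sum_one
    have h2 : ∑ ω, p ω ≤ 0 := Finset.sum_nonpos fun ω _ => hcon ω
    linarith
  have hfew : CH p dv (fun ω => (Z ω, ecv ec ω)) ≤ d := hT.few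
  have full := sig_full H hd hC dv hfew hδ hsl
  rw [← hq, ← hW] at full
  have hvd : Det p dv dv := fun _ _ _ _ e => e
  have hdG : Det q W G := by
    intro w w' a b e
    rw [hq] at a b
    rw [hW] at e
    have e1 := Wc_Am (X := X) H a b e
    have e2 := det_kv H hvd w w' a b e
    beta_reduce at e2
    rw [hGd]
    unfold Cl
    beta_reduce
    rw [e1, e2]
  obtain ⟨r, hr⟩ : ∃ r, r = cond q G True := ⟨_, rfl⟩
  have hrl : IsLaw r := by rw [hr]; exact cond_law hql.nonneg hG0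
  have hrq : ∀ w, 0 < r w → 0 < q w := fun w hw => by
    rw [hr] at hw
    exact ((cond_pos_iff hql.nonneg G True w).1 hw).1
  have hrG : ∀ w, 0 < r w → G w := fun w hw => by
    rw [hr] at hw
    have := ((cond_pos_iff hql.nonneg G True w).1 hw).2
    simpa using this
  have hrd : ∀ w, 0 < r w → 0 < Qc p ln B (2 * (d₀ + 1) + 1) w ∧
      δ ≤ |(Am X ec fun j => pt _ w (2 * j)).det| := by
    intro w hw
    refine ⟨?_, ?_⟩
    · rw [← hq]
      exact hrq w hw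
    · have h1 := hrG w hw
      rw [hGd] at h1
      have h2 := (Prod.ext_iff.mp h1).1
      unfold Cl at h2
      exact of_eq_true h2
  have hrI : ∀ w, 0 < r w → idx (Cc d₀ C δ) g Nc (kv X ec dv fun j => pt _ w (2 * j)) = i := by
    intro w hw
    have h1 := hrG w hw
    rw [hGd] at h1
    exact (Prod.ext_iff.mp h1).2
  have hDp := dp_last H hC w₀ hT.crd (dv' := dv) (η := 0) (fun ω _ => by simp)
    hT.crd.siz hvd hδ hrd
  rw [← hW] at hDp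
  have hDp' : Dp r W (fun w => t (pt (2 * (d₀ + 1) + 1) w (2 * (d₀ + 1))))
      (fun w => V (pt (2 * (d₀ + 1) + 1) w (2 * (d₀ + 1) + 1))) (Av p B t Pc ap X ec V dv w₀)
      (fun w => kv X ec dv fun j => pt _ w (2 * j)) (Cc d₀ C δ) :=
    ⟨hDp.dA, hDp.dk, fun w hw => (hDp.rel w hw).trans (by
      unfold Cc
      have := Kb_nonneg (d₀ := d₀) hC hδ
      linarith)⟩
  have ht0 : ∀ w, 0 < q w → 0 ≤ t (pt (2 * (d₀ + 1) + 1) w (2 * (d₀ + 1))) ∧
      t (pt (2 * (d₀ + 1) + 1) w (2 * (d₀ + 1))) < 2 ^ X := fun w hw => by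
    rw [hq] at hw
    exact H.t0 _ ((Qn_pos hp _ w hw).1 _ (by omega))
  have ht := fun w (hw : 0 < r w) => ht0 w (hrq w hw)
  have fullr : X * Real.log 2 - D0 d₀ X C δ c d / ϖ' ≤
      CH r (fun w => t (pt (2 * (d₀ + 1) + 1) w (2 * (d₀ + 1)))) W := by
    have h1 := Pool.LPX.time_ev hql (fun w => t (pt (2 * (d₀ + 1) + 1) w (2 * (d₀ + 1)))) W hdG
      ht0 full hG0
    rw [← hr] at h1
    refine le_trans ?_ h1
    have hc0 : 0 ≤ c := le_trans (Pe_nonneg' (by rw [← hq]; exact hql.nonneg) _) hsl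
    have h3 : 0 ≤ D0 d₀ X C δ c d := by
      unfold D0
      have h4 := R1_nonneg (d₀ := d₀) hC hδ
      have h5 : 0 ≤ Real.log (2 * R1 d₀ C δ + 1) := Real.log_nonneg (by linarith)
      positivity
    have h2 : D0 d₀ X C δ c d / Pe q G ≤ D0 d₀ X C δ c d / ϖ' :=
      div_le_div_of_nonneg_left h3 hϖ' hG
    unfold D0 at h2 ⊢
    linarith
  obtain ⟨a, ha⟩ : ∃ a, a = i * g := ⟨_, rfl⟩
  rw [← ha]
  have su0 : ∀ w, 0 < r w → |kv X ec dv fun j => pt (2 * (d₀ + 1) + 1) w (2 * j)| ≤ Cc d₀ C δ := by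
    intro w hw
    have h1 := kv_le H hC hT.crd.siz hδ (hrd w hw).1 (by omega) (hrd w hw).2
    unfold Cc
    have := Ce_nonneg (d₀ := d₀) (η := 0) hC le_rfl hδ
    linarith
  have su1 : ∀ w, 0 < r w → |kv X ec dv fun j => pt (2 * (d₀ + 1) + 1) w (2 * j)| * 2 ^ a ≤
      Cc d₀ C δ := by
    intro w hw
    have e1 := Pool.LPX.idx_spec (C := Cc d₀ C δ) (g := g) (N := Nc) (su0 w hw)
    rw [hrI w hw, ← ha] at e1
    exact e1
  have su2 : a < X → ∀ w, 0 < r w →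
      1 ≤ |kv X ec dv fun j => pt (2 * (d₀ + 1) + 1) w (2 * j)| * 2 ^ (a + g) := by
    intro haX w hw
    have e1 := hrI w hw
    have e2 : i < Nc := by
      by_contra hc
      have : Nc * g ≤ i * g := Nat.mul_le_mul_right g (not_lt.1 hc)
      omega
    have e3 := Pool.LPX.idx_low hC1 (g := g) (N := Nc)
      (x := kv X ec dv fun j => pt (2 * (d₀ + 1) + 1) w (2 * j)) (by rw [e1]; exact e2)
    rw [e1, ← ha] at e3
    exact e3
  have he0 : 0 ≤ e := by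
    by_contra hc
    push Not at hc
    have h1 : e * (h * Real.log 2) < 0 := mul_neg_of_neg_of_pos hc (by positivity)
    have hc0 : 0 ≤ c := le_trans (Pe_nonneg' (by rw [← hq]; exact hql.nonneg) _) hsl
    have h3 : 0 ≤ Er d₀ X g Kn C δ c ϖ' ϖ d := by
      unfold Er D0
      have h4 := R1_nonneg (d₀ := d₀) hC hδ
      have h5 : 0 ≤ Real.log (2 * R1 d₀ C δ + 1) := Real.log_nonneg (by linarith)
      have h6 : 0 ≤ Real.log ((Kn : ℝ) + 1) := Real.log_nonneg (by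
        have : (0 : ℝ) ≤ Kn := Nat.cast_nonneg _
        linarith)
      have h7 : 0 ≤ Real.log 5 := Real.log_nonneg (by norm_num)
      positivity
    linarith
  rcases Nat.lt_or_ge a X with haX | haX
  · obtain ⟨β', hβ⟩ : ∃ β', β' = (1 - h) * ((X : ℝ) - a) * Real.log 2 + d := ⟨_, rfl⟩
    have hma : (0 : ℝ) ≤ (X : ℝ) - a := by
      have : (a : ℝ) ≤ X := by exact_mod_cast haX.le
      linarith
    have hβ0 : 0 ≤ β' := by
      have : 0 ≤ (1 - h) * ((X : ℝ) - a) * Real.log 2 :=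
        mul_nonneg (mul_nonneg (by linarith) hma) hl2.le
      linarith
    have hup := Pool.LPX.up_row H.law hql (by rw [hq]; exact Qn_last (c := lk ln B) hp _) hϖ' hG
      hϖ (V := V) (m := X) (i := a) le_rfl haX.le S hβ0
      (fun G' hG' => by
        rw [hβ]
        exact hN a X haX.le le_rfl G' hG') hKn
    rw [← hr] at hup
    have hK : CH r (fun w => S (pt (2 * (d₀ + 1) + 1) w (2 * (d₀ + 1) + 1))) W ≤ 0 := by
      rw [CH_eq_zero hrl.nonneg]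
      intro w w' x y e'
      rw [hW] at e'
      exact det_S H w w' (hrd w x).1 (hrd w' y).1 e'
    have g3 := Pool.LPX.disp_a hrl hDp' hC1 haX.le le_rfl ht fullr su1 (su2 haX)
      (fun w => S (pt (2 * (d₀ + 1) + 1) w (2 * (d₀ + 1) + 1))) hK hup
    have g4 : h * ((X : ℝ) - a) * Real.log 2 ≤ Er d₀ X g Kn C δ c ϖ' ϖ d := by
      unfold Er
      have e5 : 0 ≤ (g : ℝ) * Real.log 2 := by positivity
      rw [hβ] at g3
      nlinarith
    have g5 : ((X : ℝ) - a) * (h * Real.log 2) ≤ e * (h * Real.log 2) := by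
      refine le_trans (le_of_eq ?_) (g4.trans he)
      ring
    exact le_of_mul_le_mul_right g5 (by positivity)
  · have : (X : ℝ) ≤ a := by exact_mod_cast haX
    linarith

/-- **The slope is small, one target.** -/
theorem kv_one (H : Chb p B ln Z Y S t ec Pc ap X C ρ c₁ d) {V dv : Ω → ℤ} {av : Ω → ℝ}
    (hT : Cht p B ln Z t ec V dv av X C d) {h ϖ : ℝ} (hN : NF1 p V S X h ϖ d) (hC : 1 ≤ C)
    (hh0 : 0 < h) (hh1 : h ≤ 1) (hϖ : 0 ≤ ϖ) (hd : 0 ≤ d) {δ c : ℝ} (hδ : 0 < δ)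
    (hsl : Pe (Qc p ln B (2 * (d₀ + 1) + 1))
      (fun w => |(Am X ec fun j => pt _ w (2 * j)).det| < δ) ≤ c) {g Nc Kn : ℕ}
    (hNc : X ≤ Nc * g) (hKn : 0 < Kn) {ϖ' : ℝ} (hϖ' : 0 < ϖ') {n : ℕ}
    (he : Er d₀ X g Kn C δ c ϖ' ϖ d ≤ n * (h * Real.log 2)) :
    Pe (Qc p ln B (2 * (d₀ + 1) + 1)) (fun w =>
      ¬ |kv X ec dv fun j => pt _ w (2 * j)| ≤ Cc d₀ C δ * 2 ^ n / 2 ^ X) ≤
      c + 2 * (Nc + 1) * ϖ' := by
  classical
  have hp := H.law.nonneg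
  have hqn := Qn_nonneg (c := lk ln B) hp (2 * (d₀ + 1) + 1)
  obtain ⟨P, hP⟩ : ∃ P : Prop × ℕ → Prop, P = fun x => x.1 → X ≤ x.2 * g + n := ⟨_, rfl⟩
  have h1 := bad_le' hqn (Cl X ec dv δ (Cc d₀ C δ) g Nc)
    ((Finset.univ : Finset Prop) ×ˢ Finset.range (Nc + 1)) (by
      intro w
      rw [Finset.mem_product]
      exact ⟨Finset.mem_univ _, Finset.mem_range.2 (Nat.lt_succ_of_le (Pool.LPX.idx_le _ _ _ _))⟩)
    hϖ'.le P (by
      rintro ⟨x, i⟩ _ h2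
      rw [hP]
      intro hx
      have hx' : x = True := eq_true hx
      rw [hx'] at h2
      have h3 := cell_one H hT hN hC hh0 hh1 hϖ hd hδ hsl hNc hKn hϖ' i h2 he
      have h4 : (X : ℝ) ≤ ((i * g + n : ℕ) : ℝ) := by
        push_cast at h3 ⊢
        linarith
      exact_mod_cast h4)
  rw [Finset.card_product, Finset.card_univ, Fintype.card_prop, Finset.card_range] at h1
  have h2 := Pe_or hqn (fun w => |(Am X ec fun j => pt (2 * (d₀ + 1) + 1) w (2 * j)).det| < δ)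
    (fun w => ¬ P (Cl X ec dv δ (Cc d₀ C δ) g Nc w))
  refine le_trans (Pe_mono' hqn (G' := fun w =>
    |(Am X ec fun j => pt (2 * (d₀ + 1) + 1) w (2 * j)).det| < δ ∨
    ¬ P (Cl X ec dv δ (Cc d₀ C δ) g Nc w)) fun w hw h3 => ?_) ?_
  · by_contra hcon
    push Not at hcon
    obtain ⟨c1, c2⟩ := hcon
    apply h3
    rw [hP] at c2
    have c3 : X ≤ idx (Cc d₀ C δ) g Nc (kv X ec dv fun j =>
        pt (2 * (d₀ + 1) + 1) w (2 * j)) * g + n := c2 c1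
    have c4 := kv_le H hC hT.crd.siz hδ hw (by omega) c1
    have c5 : |kv X ec dv fun j => pt (2 * (d₀ + 1) + 1) w (2 * j)| ≤ Cc d₀ C δ := by
      unfold Cc
      have := Ce_nonneg (d₀ := d₀) (η := 0) hC le_rfl hδ
      linarith
    have c6 := Pool.LPX.idx_spec (C := Cc d₀ C δ) (g := g) (N := Nc) c5
    rw [le_div_iff₀ (by positivity)]
    calc |kv X ec dv fun j => pt (2 * (d₀ + 1) + 1) w (2 * j)| * 2 ^ X ≤
        |kv X ec dv fun j => pt (2 * (d₀ + 1) + 1) w (2 * j)| *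
        (2 ^ (idx (Cc d₀ C δ) g Nc (kv X ec dv fun j =>
        pt (2 * (d₀ + 1) + 1) w (2 * j)) * g) * 2 ^ n) := by
          refine mul_le_mul_of_nonneg_left ?_ (abs_nonneg _)
          rw [← pow_add]
          exact pow_le_pow_right₀ (by norm_num) c3
      _ = (|kv X ec dv fun j => pt (2 * (d₀ + 1) + 1) w (2 * j)| *
        2 ^ (idx (Cc d₀ C δ) g Nc (kv X ec dv fun j =>
        pt (2 * (d₀ + 1) + 1) w (2 * j)) * g)) * 2 ^ n := by ring
      _ ≤ Cc d₀ C δ * 2 ^ n := mul_le_mul_of_nonneg_right c6 (by positivity)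
  · push_cast at h1
    linarith

end Pool.CHN
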