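import Pool.Agent.H97.CHN.Cel

/-!
# Two targets: the sizes in a cell
-/

set_option autoImplicit false

namespace Pool.CHN

open Finset Real
open Pool.Agent.H49.Ent Pool.Agent.H32.Dense Pool.STK Pool.POT Pool.TQ
open Pool.K2S (Pe)
open Pool.LPX (Crd NFz NFu tp Dp idx)

/-- **Two targets.** -/
theorem core_two {Γ τ σ : Type} [Fintype Γ] {r : Γ → ℝ} (hrl : IsLaw r) {W : Γ → τ}
    {s U Z : Γ → ℤ} {AU AZ ku kz : Γ → ℝ} {C' D β₁ : ℝ} {S : Γ → σ} (hU : Dp r W s U AU ku C')
    (hZ : Dp r W s Z AZ kz C') (hC1 : 1 ≤ C') {X a b g : ℕ}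
    (ht : ∀ w, 0 < r w → 0 ≤ s w ∧ s w < 2 ^ X) (full : X * Real.log 2 - D ≤ CH r s W)
    (su1 : ∀ w, 0 < r w → |ku w| * 2 ^ a ≤ C') (sz1 : ∀ w, 0 < r w → |kz w| * 2 ^ b ≤ C')
    (su2 : a < X → ∀ w, 0 < r w → 1 ≤ |ku w| * 2 ^ (a + g))
    (sz2 : b < X → ∀ w, 0 < r w → 1 ≤ |kz w| * 2 ^ (b + g)) (hS : Det r W S) {θ h e : ℝ}
    (hθ0 : 0 < θ) (hθ1 : θ < 1) (hh0 : 0 < h) (he0 : 0 ≤ e)
    (he : β₁ + D + 2 * g * Real.log 2 + 4 * Real.log (9 * C') ≤ e * (h * Real.log 2))
    (rowU : ∀ k m : ℕ, a ≤ m → k ≤ X → m ≤ X → (m : ℝ) ≤ θ * k →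
      CH r (fun w => tp X m (U w)) (fun w => (tp X a (U w), (tp X k (Z w), S w))) ≤
        (1 - h) * ((m : ℝ) - a) * Real.log 2 + β₁)
    (rowZ : ∀ i : ℕ, i ≤ X →
      CH r Z (fun w => (tp X i (Z w), (tp X ⌈θ * X⌉₊ (U w), S w))) ≤
        (1 - h) * ((X : ℝ) - i) * Real.log 2 + β₁) :
    (X : ℝ) - b ≤ (2 * e + 2) / (1 - θ) ∧ θ * X - a ≤ (2 * e + 2) / (1 - θ) + 1 + e := by
  have hl2 : 0 < Real.log 2 := Real.log_pos (by norm_num)
  have hl9 : 0 ≤ Real.log (9 * C') := Real.log_nonneg (by linarith)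
  -- claim (a)
  have claimA : ∀ k m : ℕ, k ≤ X → k ≤ b → (m : ℝ) ≤ θ * k → (m : ℝ) ≤ a + e := by
    intro k m hkX hkb hm
    rcases Nat.lt_or_ge a m with ham | ham
    · have hmk : m ≤ k := by
        have h1 : (m : ℝ) ≤ k := by
          have : θ * k ≤ 1 * k := mul_le_mul_of_nonneg_right hθ1.le (Nat.cast_nonneg k)
          linarith
        exact_mod_cast h1
      have hmX : m ≤ X := hmk.trans hkX
      have haX : a < X := lt_of_lt_of_le ham hmX
      have hup := rowU k m ham.le hkX hmX hm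
      have hK : CH r (fun w => (tp X k (Z w), S w)) W ≤ Real.log (9 * C') := by
        have g1 := CH_subadd hrl.nonneg (fun w => tp X k (Z w)) (fun w => S w) W
        rw [CH_eq_zero hrl.nonneg hS, add_zero] at g1
        refine g1.trans ?_
        have g2 := hZ.few hrl hC1 ht sz1 (m := k) 0 (by omega)
        simpa using g2
      have g3 := Pool.LPX.disp_a hrl hU hC1 ham.le hmX ht full su1 (su2 haX)
        (fun w => (tp X k (Z w), S w)) hK hup
      have g4 : h * ((m : ℝ) - a) * Real.log 2 ≤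
          β₁ + D + 2 * g * Real.log 2 + 4 * Real.log (9 * C') := by
        have e5 : 0 ≤ (g : ℝ) * Real.log 2 := by positivity
        nlinarith
      have g5 : ((m : ℝ) - a) * (h * Real.log 2) ≤ e * (h * Real.log 2) := by
        refine le_trans (le_of_eq ?_) (g4.trans he)
        ring
      have g6 := le_of_mul_le_mul_right g5 (by positivity)
      linarith
    · have : (m : ℝ) ≤ a := by exact_mod_cast ham
      linarith
  -- claim (b)
  have hθ' : 0 < 1 - θ := by linarith
  have claimB : (X : ℝ) - b ≤ (2 * e + 2) / (1 - θ) := by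
    rcases Nat.lt_or_ge b X with hbX | hbX
    · have hA := claimA b ⌊θ * b⌋₊ hbX.le le_rfl (Nat.floor_le (by positivity))
      have hA1 := (Nat.lt_floor_add_one (θ * (b : ℝ))).le
      obtain ⟨m, hm⟩ : ∃ m, m = ⌈θ * (X : ℝ)⌉₊ := ⟨_, rfl⟩
      have hmX : m ≤ X := by
        rw [hm, Nat.ceil_le]
        exact mul_le_of_le_one_left (Nat.cast_nonneg X) hθ1.le
      have hm2 : (m : ℝ) < θ * X + 1 := by
        rw [hm]
        exact Nat.ceil_lt_add_one (by positivity)
      obtain ⟨n, hn⟩ : ∃ n, n = m - a := ⟨_, rfl⟩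
      have hnr : (n : ℝ) ≤ θ * ((X : ℝ) - b) + 2 + e := by
        have hXb : (0 : ℝ) ≤ (X : ℝ) - b := by
          have : (b : ℝ) ≤ X := by exact_mod_cast hbX.le
          linarith
        rcases Nat.lt_or_ge a m with ham | ham
        · rw [hn, Nat.cast_sub ham.le]
          linarith
        · rw [hn, Nat.sub_eq_zero_of_le ham, Nat.cast_zero]
          positivity
      have key : (X : ℝ) - (b + n) ≤ e := by
        rcases Nat.lt_or_ge (b + n) X with hy | hy
        · have hup := rowZ (b + n) hy.le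
          rw [← hm, hn] at hup
          have g3 := Pool.LPX.disp_b hrl hU hZ hC1 (X := X) (a := a) (b := b) (g := g) (m := m) hmX
            hbX.le ht full su1 (fun ham => su2 (lt_of_lt_of_le ham hmX)) sz1 (sz2 hbX) hS hup
          rw [← hn] at g3
          have g4 : h * ((X : ℝ) - (b + n : ℕ)) * Real.log 2 ≤
              β₁ + D + 2 * g * Real.log 2 + 4 * Real.log (9 * C') := by
            push_cast at g3 ⊢
            nlinarith
          have g5 : ((X : ℝ) - (b + n : ℕ)) * (h * Real.log 2) ≤ e * (h * Real.log 2) := by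
            refine le_trans (le_of_eq ?_) (g4.trans he)
            ring
          have g6 := le_of_mul_le_mul_right g5 (by positivity)
          push_cast at g6
          linarith
        · have : (X : ℝ) ≤ b + n := by exact_mod_cast hy
          linarith
      rw [le_div_iff₀ hθ']
      nlinarith
    · have h1 : (X : ℝ) - b ≤ 0 := by
        have : (X : ℝ) ≤ b := by exact_mod_cast hbX
        linarith
      exact h1.trans (by positivity)
  refine ⟨claimB, ?_⟩
  -- the size of `a`
  obtain ⟨k, hk⟩ : ∃ k, k = min b X := ⟨_, rfl⟩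
  have hA := claimA k ⌊θ * k⌋₊ (by rw [hk]; exact min_le_right _ _)
    (by rw [hk]; exact min_le_left _ _) (Nat.floor_le (by positivity))
  have hA1 := (Nat.lt_floor_add_one (θ * (k : ℝ))).le
  have hkr : (X : ℝ) - k ≤ (2 * e + 2) / (1 - θ) := by
    rcases le_or_gt b X with h1 | h1
    · have : k = b := by rw [hk]; exact min_eq_left h1
      rw [this]
      exact claimB
    · have : k = X := by rw [hk]; exact min_eq_right h1.le
      rw [this, sub_self]
      positivity
  have hkX : (k : ℝ) ≤ X := by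
    rw [hk]
    exact_mod_cast min_le_right b X
  have : θ * ((X : ℝ) - k) ≤ 1 * ((X : ℝ) - k) := by
    refine mul_le_mul_of_nonneg_right hθ1.le ?_
    linarith
  nlinarith

end Pool.CHN
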