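import Pool.Agent.H97.CHN.Shf

/-!
# Chains of copies: the two properties of the covector
-/

set_option autoImplicit false

namespace Pool.CHN

open Finset Real Matrix
open Pool.Agent.H49.Ent Pool.Agent.H32.Dense Pool.STK Pool.POT Pool.TQ
open Pool.K2S (Pe)
open Pool.LPX (Crd NFz NFu tp)

variable {Ω β Λ υ σ ζ : Type} {d₀ : ℕ}

variable [Fintype Ω] {p : Ω → ℝ} {B : Ω → β} {ln : Ω → Λ} {Z : Ω → ζ} {Y : Ω → υ} {S : Ω → σ}
  {t : Ω → ℤ} {ec Pc : Fin d₀ → Ω → ℤ} {ap : Fin d₀ → Ω → ℝ} {X : ℕ} {C ρ c₁ d : ℝ}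

/-- One line: two points. -/
theorem Qc_one (p : Ω → ℝ) (ln : Ω → Λ) (B : Ω → β) (w : Ω × Ω) :
    Qc p ln B 1 w = dbl p ln w := by
  classical
  have h1 : ∀ x : Ω, law p (lk ln B 0) (lk ln B 0 x) = law p ln (ln x) := by
    intro x
    unfold law
    refine Finset.sum_congr rfl fun ω _ => ?_
    simp [lk]
  show glue p p (fun w => lk ln B 0 w) (lk ln B 0) w = glue p p ln ln w
  unfold glue
  rw [h1]
  simp [lk]

theorem Pe_dbl (p : Ω → ℝ) (ln : Ω → Λ) (B : Ω → β) (E : Ω × Ω → Prop) :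
    Pe (dbl p ln) E = Pe (Qc p ln B 1) (fun w => E (pt 1 w 0, pt 1 w 1)) := by
  have h1 : (Qc p ln B 1 : Ω × Ω → ℝ) = dbl p ln := funext fun w => Qc_one p ln B w
  have h2 : (fun w : Tn Ω 1 => E (pt 1 w 0, pt 1 w 1)) = fun w : Ω × Ω => E w := by
    funext w
    rfl
  rw [← h1]
  rfl

/-- **(the velocity)** -/
theorem cov_a (H : Chb p B ln Z Y S t ec Pc ap X C ρ c₁ d) (hC : 1 ≤ C) {dv : Ω → ℤ}
    (hl : Det p ln dv) {δ r b : ℝ} (hδ : 0 < δ) (hr : 0 ≤ r) {Mf : β → Fin (d₀ + 1) → ℝ}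
    (hb : Pe (Qc p ln B (2 * d₀ + 1)) (fun a => ¬ Nr B X ec dv δ r Mf a) ≤ b) :
    Pe p (fun ω => ¬ |(dv ω : ℝ) / 2 ^ X - ∑ i, Mf (B ω) i * Xv X ec ω i| ≤
      (d₀ + 1) * (r * C)) ≤ b := by
  have hp := H.law.nonneg
  rw [← Pool.CHN.Im.Pe (Qn_last (c := lk ln B) hp (2 * d₀ + 1))]
  refine le_trans (Pe_mono' (Qn_nonneg hp _) fun a ha h1 => ?_) hb
  intro hN
  apply h1
  obtain ⟨hdet, hM⟩ := hN
  obtain ⟨hpos, -⟩ := Qn_pos hp _ a ha
  have hsl := same_line hp ha (i := d₀) (by omega)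
  have hx1 := hpos (2 * d₀) (by omega)
  have hx2 := hpos (2 * d₀ + 1) le_rfl
  have hY := H.lY _ _ hx1 hx2 hsl
  have e1 : dv (pt _ a (2 * d₀)) = dv (pt _ a (2 * d₀ + 1)) := hl _ _ hx1 hx2 hsl
  have e2 : Xv X ec (pt _ a (2 * d₀)) = Xv X ec (pt _ a (2 * d₀ + 1)) := by
    unfold Xv
    congr 1
    funext i
    rw [(H.P i).dd _ _ hx1 hx2 hY]
  have hne : (Am X ec fun j => pt _ a (2 * j)).det ≠ 0 := by
    intro e
    rw [e, abs_zero] at hdet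
    linarith
  have e3 := Mv_eq X ec dv (fun j => pt _ a (2 * j)) hne ⟨d₀, by omega⟩
  have e4 : ∑ i, Mv X ec dv (fun j => pt (2 * d₀ + 1) a (2 * j)) i *
      Xv X ec (pt _ a (2 * d₀ + 1)) i = (dv (pt _ a (2 * d₀ + 1)) : ℝ) / 2 ^ X := by
    rw [← e1, ← e2]
    exact e3
  rw [← e4, ← Finset.sum_sub_distrib]
  refine (Finset.abs_sum_le_sum_abs _ _).trans ?_
  calc ∑ i, |Mv X ec dv (fun j => pt (2 * d₀ + 1) a (2 * j)) i *
        Xv X ec (pt (2 * d₀ + 1) a (2 * d₀ + 1)) i -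
        Mf (B (pt (2 * d₀ + 1) a (2 * d₀ + 1))) i * Xv X ec (pt (2 * d₀ + 1) a (2 * d₀ + 1)) i| ≤
      ∑ _i : Fin (d₀ + 1), r * C := by
        refine Finset.sum_le_sum fun i _ => ?_
        rw [← sub_mul, abs_mul]
        exact mul_le_mul (hM i) (Xv_le hC (fun i => (H.P i).siz _ hx2) i) (abs_nonneg _) hr
    _ = _ := by
        rw [Finset.sum_const, Finset.card_univ, Fintype.card_fin, nsmul_eq_mul]
        push_cast
        ring

/-- **(along the lines)** -/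
theorem cov_b (H : Chb p B ln Z Y S t ec Pc ap X C ρ c₁ d) (hC : 1 ≤ C) {dv : Ω → ℤ}
    {δ r b κ₁ r₁ : ℝ} (hδ : 0 < δ) (hκ : 0 ≤ κ₁) {Mf : β → Fin (d₀ + 1) → ℝ}
    (hb : Pe (Qc p ln B (2 * d₀ + 1)) (fun a => ¬ Nr B X ec dv δ r Mf a) ≤ b)
    (hk : Pe (Qc p ln B (2 * (d₀ + 1) + 1))
      (fun w => ¬ |kv X ec dv fun j => pt _ w (2 * j)| ≤ κ₁) ≤ r₁) :
    Pe (dbl p ln) (fun w => ¬ ∀ i, |Mf (B w.1) i - Mf (B w.2) i| ≤ 2 * r + K2 d₀ C δ κ₁) ≤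
      2 * b + r₁ := by
  have hp := H.law.nonneg
  obtain ⟨n, hn⟩ : ∃ n, n = 2 * (d₀ + 1) + 1 := ⟨_, rfl⟩
  rw [← hn] at hk
  rw [Pe_dbl p ln B]
  obtain ⟨f, hf, hf2⟩ := win (ln := ln) (B := B) hp n 1 (d₀ + 1) (by omega)
  rw [← Pool.CHN.Im.Pe hf]
  -- the two windows
  have w0 : Pe (Qc p ln B n) (fun w => ¬ (δ ≤ |(Am X ec fun i => pt n w (2 * (i + (0 + 0)))).det| ∧
      ∀ i, |Mv X ec dv (fun i => pt n w (2 * (i + 0))) i - Mf (B (pt n w (2 * d₀ + 1))) i| ≤ r)) ≤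
      b := by
    refine win_Pe hp (k := 2 * d₀ + 1) (j := 0) (by omega) hb ?_
    intro w w' h1 h2 h3
    apply h2
    obtain ⟨h4, h5⟩ := h3
    have e1 : ∀ i, i ≤ d₀ → (fun i => pt (2 * d₀ + 1) w' (2 * i)) i =
        (fun i => pt n w (2 * (i + (0 + 0)))) i := fun i hi => by
      beta_reduce
      rw [h1 (2 * i) (by omega)]
      congr 1
    have e2 : pt (2 * d₀ + 1) w' (2 * d₀ + 1) = pt n w (2 * d₀ + 1) := by
      rw [h1 _ le_rfl]
    rw [Am_congr e1] at h4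
    rw [Mv_congr e1, e2] at h5
    exact ⟨h4, h5⟩
  have w1 : Pe (Qc p ln B n) (fun w => ¬ (δ ≤ |(Am X ec fun i => pt n w (2 * (i + (0 + 1)))).det| ∧
      ∀ i, |Mv X ec dv (fun i => pt n w (2 * (i + (0 + 1)))) i -
        Mf (B (pt n w (2 * d₀ + 3))) i| ≤ r)) ≤ b := by
    refine win_Pe hp (k := 2 * d₀ + 1) (j := 1) (by omega) hb ?_
    intro w w' h1 h2 h3
    apply h2
    obtain ⟨h4, h5⟩ := h3
    have e1 : ∀ i, i ≤ d₀ → (fun i => pt (2 * d₀ + 1) w' (2 * i)) i =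
        (fun i => pt n w (2 * (i + (0 + 1)))) i := fun i hi => by
      beta_reduce
      rw [h1 (2 * i) (by omega)]
      congr 1
    have e2 : pt (2 * d₀ + 1) w' (2 * d₀ + 1) = pt n w (2 * d₀ + 3) := by
      rw [h1 _ le_rfl]
    rw [Am_congr e1] at h4
    rw [Mv_congr e1, e2] at h5
    exact ⟨h4, h5⟩
  have hk' : Pe (Qc p ln B n) (fun w => ¬ |kv X ec dv fun i => pt n w (2 * (i + (0 + 0)))| ≤ κ₁) ≤
      r₁ := by
    have e : (fun w : Tn Ω n => ¬ |kv X ec dv fun i => pt n w (2 * (i + (0 + 0)))| ≤ κ₁) =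
        fun w => ¬ |kv X ec dv fun j => pt n w (2 * j)| ≤ κ₁ := by
      funext w
      simp
    rw [e, hn]
    rw [hn] at hk
    exact hk
  refine le_trans (Pe_mono' (Qn_nonneg hp n) (G' := fun w =>
    (¬ (δ ≤ |(Am X ec fun i => pt n w (2 * (i + (0 + 0)))).det| ∧
      ∀ i, |Mv X ec dv (fun i => pt n w (2 * (i + 0))) i - Mf (B (pt n w (2 * d₀ + 1))) i| ≤ r) ∨
    ¬ (δ ≤ |(Am X ec fun i => pt n w (2 * (i + (0 + 1)))).det| ∧
      ∀ i, |Mv X ec dv (fun i => pt n w (2 * (i + (0 + 1)))) i -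
        Mf (B (pt n w (2 * d₀ + 3))) i| ≤ r)) ∨
    ¬ |kv X ec dv fun i => pt n w (2 * (i + (0 + 0)))| ≤ κ₁) fun w hw h1 => ?_) ?_
  · by_contra hcon
    push Not at hcon
    obtain ⟨⟨⟨c1, c2⟩, c3, c4⟩, c5⟩ := hcon
    apply h1
    intro i
    have s1 := shift_all H hC (dv := dv) hδ hκ hw 0 1 (by omega)
      (fun j hj => by
        rcases Nat.lt_or_ge j 1 with hj1 | hj1
        · have : j = 0 := by omega
          rw [this]
          exact c1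
        · have : j = 1 := by omega
          rw [this]
          exact c3)
      (fun j hj => by
        have : j = 0 := by omega
        rw [this]
        exact c5) i
    have g1 : pt 1 (f w) 0 = pt n w (2 * d₀ + 2) := by
      rw [hf2 w 0 (by omega)]
      congr 1
      ring
    have g2 : pt 1 (f w) 1 = pt n w (2 * d₀ + 3) := by
      rw [hf2 w 1 le_rfl]
      congr 1
      ring
    have g3 := same_ball hp hw (i := d₀) (by omega)
    rw [g1, g2, ← g3]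
    have x1 := abs_le.1 (c2 i)
    have x2 := abs_le.1 (c4 i)
    have x3 := abs_le.1 s1
    rw [abs_le]
    push_cast at x3
    constructor <;> linarith [x1.1, x1.2, x2.1, x2.2, x3.1, x3.2]
  · have u1 := Pe_or (Qn_nonneg (c := lk ln B) hp n) (fun w =>
      (¬ (δ ≤ |(Am X ec fun i => pt n w (2 * (i + (0 + 0)))).det| ∧
      ∀ i, |Mv X ec dv (fun i => pt n w (2 * (i + 0))) i - Mf (B (pt n w (2 * d₀ + 1))) i| ≤ r) ∨
    ¬ (δ ≤ |(Am X ec fun i => pt n w (2 * (i + (0 + 1)))).det| ∧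
      ∀ i, |Mv X ec dv (fun i => pt n w (2 * (i + (0 + 1)))) i -
        Mf (B (pt n w (2 * d₀ + 3))) i| ≤ r)))
      (fun w => ¬ |kv X ec dv fun i => pt n w (2 * (i + (0 + 0)))| ≤ κ₁)
    have u2 := Pe_or (Qn_nonneg (c := lk ln B) hp n) (fun w =>
      ¬ (δ ≤ |(Am X ec fun i => pt n w (2 * (i + (0 + 0)))).det| ∧
      ∀ i, |Mv X ec dv (fun i => pt n w (2 * (i + 0))) i - Mf (B (pt n w (2 * d₀ + 1))) i| ≤ r))
      (fun w =>
    ¬ (δ ≤ |(Am X ec fun i => pt n w (2 * (i + (0 + 1)))).det| ∧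
      ∀ i, |Mv X ec dv (fun i => pt n w (2 * (i + (0 + 1)))) i -
        Mf (B (pt n w (2 * d₀ + 3))) i| ≤ r))
    linarith

end Pool.CHN
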