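import Pool.Agent.H97.CHN.Tim

/-!
# Chains of copies: the covector is a function of the ball
-/

set_option autoImplicit false

namespace Pool.CHN

open Finset Real Matrix
open Pool.Agent.H49.Ent Pool.Agent.H32.Dense Pool.STK Pool.POT Pool.TQ
open Pool.K2S (Pe)
open Pool.LPX (Crd NFz NFu tp)

variable {Ω β Λ υ σ ζ : Type} {d₀ : ℕ}

/-! ### Congruence -/

theorem Am_congr {X : ℕ} {ec : Fin d₀ → Ω → ℤ} {L L' : ℕ → Ω} (h : ∀ j, j ≤ d₀ → L j = L' j) :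
    Am X ec L = Am X ec L' := by
  ext i j
  show Xv X ec (L j) i = Xv X ec (L' j) i
  rw [h j (by have := j.2; omega)]

theorem Mv_congr {X : ℕ} {ec : Fin d₀ → Ω → ℤ} {dv : Ω → ℤ} {L L' : ℕ → Ω}
    (h : ∀ j, j ≤ d₀ → L j = L' j) : Mv X ec dv L = Mv X ec dv L' := by
  unfold Mv
  rw [Am_congr h]
  congr 1
  funext j
  rw [h j (by have := j.2; omega)]

theorem kv_congr {X : ℕ} {ec : Fin d₀ → Ω → ℤ} {dv : Ω → ℤ} {L L' : ℕ → Ω}
    (h : ∀ j, j ≤ d₀ + 1 → L j = L' j) : kv X ec dv L = kv X ec dv L' := by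
  unfold kv
  rw [Mv_congr fun j hj => h j (by omega), h (d₀ + 1) le_rfl]

/-! ### Union bounds -/

theorem Pe_union {Γ : Type} [Fintype Γ] {q : Γ → ℝ} (hq : ∀ ω, 0 ≤ q ω) (E : ℕ → Γ → Prop) :
    ∀ (n : ℕ) (c : ℝ), (∀ j, j < n → Pe q (E j) ≤ c) → Pe q (fun w => ∃ j < n, E j w) ≤ n * c
  | 0, c, _ => by
    have h1 : Pe q (fun w => ∃ j < 0, E j w) = 0 := by
      rw [Pe_Ex]
      unfold Ex
      refine Finset.sum_eq_zero fun ω _ => ?_
      simp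
    rw [h1]
    simp
  | n + 1, c, h => by
    have ih := Pe_union hq E n c fun j hj => h j (by omega)
    have h1 : Pe q (fun w => ∃ j < n + 1, E j w) ≤
        Pe q (fun w => (∃ j < n, E j w) ∨ E n w) := by
      refine Pe_mono' hq fun w _ hw => ?_
      obtain ⟨j, hj, hE⟩ := hw
      rcases Nat.lt_or_ge j n with h2 | h2
      · exact Or.inl ⟨j, h2, hE⟩
      · have : j = n := by omega
        rw [this] at hE
        exact Or.inr hE
    have h2 := Pe_or hq (fun w => ∃ j < n, E j w) (E n)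
    have h3 := h n (by omega)
    push_cast
    linarith

variable [Fintype Ω] {p : Ω → ℝ} {B : Ω → β} {ln : Ω → Λ} {Z : Ω → ζ} {Y : Ω → υ} {S : Ω → σ}
  {t : Ω → ℤ} {ec Pc : Fin d₀ → Ω → ℤ} {ap : Fin d₀ → Ω → ℝ} {X : ℕ} {C ρ c₁ d : ℝ}

/-- **Windows of a chain.** -/
theorem win (hp : ∀ ω, 0 ≤ p ω) (n k j : ℕ) (h : k + 2 * j ≤ n) :
    ∃ f : Tn Ω n → Tn Ω k, Im (Qc p ln B n) (Qc p ln B k) f ∧
      ∀ w i, i ≤ k → pt k (f w) i = pt n w (i + 2 * j) := by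
  obtain ⟨m, rfl⟩ : ∃ m, n = (k + m) + 2 * j := ⟨n - k - 2 * j, by omega⟩
  refine ⟨fun w => tkm m (drm (2 * j) w), ?_, ?_⟩
  · have h1 := Qn_drm hp (n := k + m) (2 * j) (lk ln B)
    have h2 := Qn_tkm (c := lk ln B) hp (n := k) m
    have e : (fun i => lk ln B (i + 2 * j)) = lk ln B := funext fun i => lk_add ln B i j
    rw [e] at h1
    exact h2.comp h1
  · intro w i hi
    rw [pt_tkm m i hi, pt_drm (2 * j) i (by omega)]

/-- Events of a window. -/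
theorem win_Pe (hp : ∀ ω, 0 ≤ p ω) {n k j : ℕ} (h : k + 2 * j ≤ n) {E : Tn Ω k → Prop}
    {E' : Tn Ω n → Prop} {c : ℝ} (hE : Pe (Qc p ln B k) E ≤ c)
    (he : ∀ (w : Tn Ω n) (w' : Tn Ω k), (∀ i, i ≤ k → pt k w' i = pt n w (i + 2 * j)) → E' w →
      E w') : Pe (Qc p ln B n) E' ≤ c := by
  obtain ⟨f, hf, hf2⟩ := win (ln := ln) (B := B) hp n k j h
  rw [← Pool.CHN.Im.Pe hf E] at hE
  refine le_trans (Pe_mono' (Qn_nonneg hp n) fun w _ hw => ?_) hE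
  exact he w (f w) (hf2 w) hw

/-- The radius of one shift. -/
noncomputable def K2 (d₀ : ℕ) (C δ κ₁ : ℝ) : ℝ := (d₀ + 1) * (κ₁ * (Ka d₀ C / δ))

theorem K2_nonneg {C δ κ₁ : ℝ} (hC : 1 ≤ C) (hδ : 0 < δ) (hκ : 0 ≤ κ₁) : 0 ≤ K2 d₀ C δ κ₁ := by
  unfold K2
  have := Ka_one (d₀ := d₀) hC
  positivity

/-- **Several shifts.** -/
theorem shift_all (H : Chb p B ln Z Y S t ec Pc ap X C ρ c₁ d) (hC : 1 ≤ C) {dv : Ω → ℤ}
    {δ κ₁ : ℝ} (hδ : 0 < δ) (hκ : 0 ≤ κ₁) {n : ℕ} {w : Tn Ω n} (hw : 0 < Qc p ln B n w) (J₀ : ℕ) :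
    ∀ J : ℕ, 2 * (J₀ + J + d₀) ≤ n →
    (∀ j, j ≤ J → δ ≤ |(Am X ec fun i => pt n w (2 * (i + (J₀ + j)))).det|) →
    (∀ j, j < J → |kv X ec dv fun i => pt n w (2 * (i + (J₀ + j)))| ≤ κ₁) →
    ∀ i, |Mv X ec dv (fun i => pt n w (2 * (i + J₀))) i -
      Mv X ec dv (fun i => pt n w (2 * (i + (J₀ + J)))) i| ≤ J * K2 d₀ C δ κ₁
  | 0, _, _, _, i => by simp
  | J + 1, hn, hdet, hk, i => by
    have ih := shift_all H hC (dv := dv) hδ hκ hw J₀ J (by omega) (fun j hj => hdet j (by omega))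
      (fun j hj => hk j (by omega)) i
    have hp := H.law.nonneg
    obtain ⟨hpos, -⟩ := Qn_pos hp _ w hw
    have e0 : (fun i => pt n w (2 * ((i + 1) + (J₀ + J)))) =
        fun i => pt n w (2 * (i + (J₀ + (J + 1)))) := by
      funext i
      congr 1
      ring
    have h1 := Mv_shift (X := X) (ec := ec) (dv := dv) (L := fun i => pt n w (2 * (i + (J₀ + J))))
      (C := C) (δ := δ) (κ := κ₁) hC hδ (by
        intro j hj i
        exact (H.P i).siz _ (hpos _ (by omega))) (hdet J (by omega)) (by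
        have := hdet (J + 1) le_rfl
        rw [← e0] at this
        exact this) hκ (hk J (by omega)) i
    have e1 : (fun i => (fun i => pt n w (2 * (i + (J₀ + J)))) (i + 1)) =
        fun i => pt n w (2 * (i + (J₀ + (J + 1)))) := e0
    rw [e1] at h1
    have h2 : ((J + 1 : ℕ) : ℝ) * K2 d₀ C δ κ₁ = J * K2 d₀ C δ κ₁ + K2 d₀ C δ κ₁ := by
      push_cast
      ring
    rw [h2]
    have h3 : Mv X ec dv (fun i => pt n w (2 * (i + J₀))) i -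
      Mv X ec dv (fun i => pt n w (2 * (i + (J₀ + (J + 1))))) i =
      (Mv X ec dv (fun i => pt n w (2 * (i + J₀))) i -
      Mv X ec dv (fun i => pt n w (2 * (i + (J₀ + J)))) i) +
      (Mv X ec dv (fun i => pt n w (2 * (i + (J₀ + J)))) i -
      Mv X ec dv (fun i => pt n w (2 * (i + (J₀ + (J + 1))))) i) := by ring
    rw [h3]
    refine (abs_add_le _ _).trans (add_le_add ih ?_)
    unfold K2
    exact h1

/-- The covector of the first lines is near a function of the ball. -/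
def Nr (B : Ω → β) (X : ℕ) (ec : Fin d₀ → Ω → ℤ) (dv : Ω → ℤ) (δ r : ℝ)
    (Mf : β → Fin (d₀ + 1) → ℝ) (a : Tn Ω (2 * d₀ + 1)) : Prop :=
  δ ≤ |(Am X ec fun j => pt _ a (2 * j)).det| ∧
    ∀ i, |Mv X ec dv (fun j => pt _ a (2 * j)) i - Mf (B (pt _ a (2 * d₀ + 1))) i| ≤ r

instance nonTn [Nonempty Ω] : (n : ℕ) → Nonempty (Tn Ω n)
  | 0 => inferInstanceAs (Nonempty Ω)
  | n + 1 => @instNonemptyProd (Tn Ω n) Ω (nonTn n) _

/-- **(STEP 2)** -/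
theorem step2 (H : Chb p B ln Z Y S t ec Pc ap X C ρ c₁ d) (hC : 1 ≤ C) {dv : Ω → ℤ}
    (hsz : ∀ ω, 0 < p ω → |(dv ω : ℝ)| ≤ C * 2 ^ X) {δ κ₁ c r₁ : ℝ} (hδ : 0 < δ) (hκ : 0 ≤ κ₁)
    (hs : ∀ n, 2 * d₀ ≤ n →
      Pe (Qc p ln B n) (fun w => |(Am X ec fun j => pt n w (2 * j)).det| < δ) ≤ c)
    (hk : Pe (Qc p ln B (2 * (d₀ + 1) + 1))
      (fun w => ¬ |kv X ec dv fun j => pt _ w (2 * j)| ≤ κ₁) ≤ r₁) :
    ∃ Mf : β → Fin (d₀ + 1) → ℝ,
      (∀ b i, |Mf b i| ≤ (d₀ + 1) * (C * (Ka d₀ C / δ)) + (d₀ + 1) * K2 d₀ C δ κ₁) ∧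
      Pe (Qc p ln B (2 * d₀ + 1))
        (fun a => ¬ Nr B X ec dv δ ((d₀ + 1) * K2 d₀ C δ κ₁) Mf a) ≤
        (d₀ + 1) * r₁ + (d₀ + 2) * c := by
  classical
  have hp := H.law.nonneg
  have hΩ : Nonempty Ω := by
    by_contra hcon
    rw [not_nonempty_iff] at hcon
    have h1 := H.law.sum_one
    rw [Finset.univ_eq_empty, Finset.sum_empty] at h1
    norm_num at h1
  obtain ⟨M, hM⟩ : ∃ M : Tn Ω (2 * d₀ + 1) → Fin (d₀ + 1) → ℝ,
    M = fun a => Mv X ec dv (fun j => pt _ a (2 * j)) := ⟨_, rfl⟩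
  obtain ⟨D, hD⟩ : ∃ D : Tn Ω (2 * d₀ + 1) → ℝ,
    D = fun a => |(Am X ec fun j => pt _ a (2 * j)).det| := ⟨_, rfl⟩
  obtain ⟨R, hR⟩ : ∃ R, R = (d₀ + 1) * K2 d₀ C δ κ₁ := ⟨_, rfl⟩
  obtain ⟨Mb, hMb⟩ : ∃ Mb, Mb = (d₀ + 1) * (C * (Ka d₀ C / δ)) := ⟨_, rfl⟩
  have hR0 : 0 ≤ R := by
    rw [hR]
    have := K2_nonneg (d₀ := d₀) hC hδ hκ
    positivity
  have hMb0 : 0 ≤ Mb := by
    rw [hMb]
    have := Ka_one (d₀ := d₀) hC
    positivity
  -- the bad events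
  have b1 : Pe (Qc p ln B (2 * d₀ + 1 + (2 * d₀ + 1) + 1))
      (fun w => ∃ j < d₀ + 2, |(Am X ec fun i => pt (2 * d₀ + 1 + (2 * d₀ + 1) + 1) w (2 * (i + (0 + j)))).det| < δ) ≤
      ((d₀ + 2 : ℕ) : ℝ) * c := by
    refine Pe_union (Qn_nonneg hp (2 * d₀ + 1 + (2 * d₀ + 1) + 1)) _ _ _ fun j hj => ?_
    refine win_Pe hp (k := 2 * d₀) (j := j) (by omega) (hs (2 * d₀) le_rfl) ?_
    intro w w' h1 h2
    have e : Am X ec (fun i => pt (2 * d₀) w' (2 * i)) =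
        Am X ec fun i => pt (2 * d₀ + 1 + (2 * d₀ + 1) + 1) w (2 * (i + (0 + j))) := by
      refine Am_congr fun i hi => ?_
      rw [h1 (2 * i) (by omega)]
      congr 1
      ring
    rw [e]
    exact h2
  have b2 : Pe (Qc p ln B (2 * d₀ + 1 + (2 * d₀ + 1) + 1))
      (fun w => ∃ j < d₀ + 1, ¬ |kv X ec dv fun i => pt (2 * d₀ + 1 + (2 * d₀ + 1) + 1) w (2 * (i + (0 + j)))| ≤ κ₁) ≤
      ((d₀ + 1 : ℕ) : ℝ) * r₁ := by
    refine Pe_union (Qn_nonneg hp (2 * d₀ + 1 + (2 * d₀ + 1) + 1)) _ _ _ fun j hj => ?_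
    refine win_Pe hp (k := 2 * (d₀ + 1) + 1) (j := j) (by omega) hk ?_
    intro w w' h1 h2
    have e : kv X ec dv (fun i => pt (2 * (d₀ + 1) + 1) w' (2 * i)) =
        kv X ec dv fun i => pt (2 * d₀ + 1 + (2 * d₀ + 1) + 1) w (2 * (i + (0 + j))) := by
      refine kv_congr fun i hi => ?_
      rw [h1 (2 * i) (by omega)]
      congr 1
      ring
    rw [e]
    exact h2
  have b3 := Pe_or (Qn_nonneg (c := lk ln B) hp (2 * d₀ + 1 + (2 * d₀ + 1) + 1))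
    (fun w => ∃ j < d₀ + 2, |(Am X ec fun i => pt (2 * d₀ + 1 + (2 * d₀ + 1) + 1) w (2 * (i + (0 + j)))).det| < δ)
    (fun w => ∃ j < d₀ + 1, ¬ |kv X ec dv fun i => pt (2 * d₀ + 1 + (2 * d₀ + 1) + 1) w (2 * (i + (0 + j)))| ≤ κ₁)
  -- past and future
  have hsp := Qn_sp (c := lk ln B) hp (n := 2 * d₀ + 1) (2 * d₀ + 1)
  have e1 : (fun i => lk ln B (2 * d₀ + 1 + 1 + i)) = lk ln B := by
    funext i
    have := lk_add ln B i (d₀ + 1)
    rw [← this]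
    congr 1
    ring
  rw [e1] at hsp
  obtain ⟨φ, hφ⟩ : ∃ φ : Tn Ω (2 * d₀ + 1) → Tn Ω (2 * d₀ + 1) → Prop,
    φ = fun a b => δ ≤ D a ∧ ∀ i, |M a i - M b i| ≤ R := ⟨_, rfl⟩
  have hgood : Pe (Qc p ln B (2 * d₀ + 1 + (2 * d₀ + 1) + 1)) (fun w => ¬ φ (sp (2 * d₀ + 1) w).1 (sp (2 * d₀ + 1) w).2) ≤
      (d₀ + 1) * r₁ + (d₀ + 2) * c := by
    have h1 : Pe (Qc p ln B (2 * d₀ + 1 + (2 * d₀ + 1) + 1)) (fun w => ¬ φ (sp (2 * d₀ + 1) w).1 (sp (2 * d₀ + 1) w).2) ≤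
        Pe (Qc p ln B (2 * d₀ + 1 + (2 * d₀ + 1) + 1)) (fun w =>
        (∃ j < d₀ + 2, |(Am X ec fun i => pt (2 * d₀ + 1 + (2 * d₀ + 1) + 1) w (2 * (i + (0 + j)))).det| < δ) ∨
        (∃ j < d₀ + 1, ¬ |kv X ec dv fun i => pt (2 * d₀ + 1 + (2 * d₀ + 1) + 1) w (2 * (i + (0 + j)))| ≤ κ₁)) := by
      refine Pe_mono' (Qn_nonneg hp (2 * d₀ + 1 + (2 * d₀ + 1) + 1)) fun w hw hφw => ?_
      by_contra hcon
      push Not at hcon
      obtain ⟨c1, c2⟩ := hcon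
      apply hφw
      have p1 : ∀ i, i ≤ 2 * d₀ + 1 → pt (2 * d₀ + 1) (sp (2 * d₀ + 1) w).1 i = pt (2 * d₀ + 1 + (2 * d₀ + 1) + 1) w i :=
        fun i hi => by
          rw [pt_sp1 (2 * d₀ + 1) i hi w]
      have p2 : ∀ i, i ≤ 2 * d₀ + 1 → pt (2 * d₀ + 1) (sp (2 * d₀ + 1) w).2 i =
          pt (2 * d₀ + 1 + (2 * d₀ + 1) + 1) w (2 * d₀ + 1 + 1 + i) := fun i hi => by
          rw [pt_sp2 (2 * d₀ + 1) i hi w]
      have g1 : D (sp (2 * d₀ + 1) w).1 = |(Am X ec fun i => pt (2 * d₀ + 1 + (2 * d₀ + 1) + 1) w (2 * (i + (0 + 0)))).det| := by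
        rw [hD]
        beta_reduce
        congr 2
        refine Am_congr fun i hi => ?_
        rw [p1 (2 * i) (by omega)]
        congr 1
      have g2 : M (sp (2 * d₀ + 1) w).1 = Mv X ec dv fun i => pt (2 * d₀ + 1 + (2 * d₀ + 1) + 1) w (2 * (i + 0)) := by
        rw [hM]
        beta_reduce
        refine Mv_congr fun i hi => ?_
        rw [p1 (2 * i) (by omega)]
        congr 1
      have g3 : M (sp (2 * d₀ + 1) w).2 =
          Mv X ec dv fun i => pt (2 * d₀ + 1 + (2 * d₀ + 1) + 1) w (2 * (i + (0 + (d₀ + 1)))) := by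
        rw [hM]
        beta_reduce
        refine Mv_congr fun i hi => ?_
        rw [p2 (2 * i) (by omega)]
        congr 1
        ring
      rw [hφ]
      refine ⟨?_, ?_⟩
      · rw [g1]
        exact c1 0 (by omega)
      · intro i
        rw [g2, g3]
        have h2 := shift_all H hC (dv := dv) hδ hκ hw 0 (d₀ + 1) (by omega)
          (fun j hj => c1 j (by omega)) c2 i
        rw [hR]
        push_cast at h2
        exact h2
    push_cast at b1 b2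
    linarith
  -- selection
  obtain ⟨s, hs2⟩ := sel_fst (q₁ := Qc p ln B (2 * d₀ + 1)) (q₂ := Qc p ln B (2 * d₀ + 1))
    (Z₁ := fun w => lk ln B (2 * d₀ + 1) (pt (2 * d₀ + 1) w (2 * d₀ + 1)))
    (Z₂ := fun w => lk ln B (2 * d₀ + 1) (pt (2 * d₀ + 1) w 0))
    (Qn_nonneg hp _) (Qn_nonneg hp _)
    (fun z => (Qn_hZ (c := lk ln B) hp (2 * d₀ + 1) z).trans
      ((Qn_first (c := lk ln B) hp (2 * d₀ + 1)).law (lk ln B (2 * d₀ + 1)) z).symm) φ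
  refine ⟨fun b => if ∀ i, |M (s (Sum.inr b)) i| ≤ Mb + R then M (s (Sum.inr b)) else 0, ?_, ?_⟩
  · intro b i
    rw [← hR, ← hMb]
    beta_reduce
    split_ifs with h1
    · exact h1 i
    · rw [Pi.zero_apply, abs_zero]
      linarith
  · have hq1 : IsLaw (Qc p ln B (2 * d₀ + 1)) := Qn_law H.law _
    have hq4 : IsLaw (Qc p ln B (2 * d₀ + 1 + (2 * d₀ + 1) + 1)) := Qn_law H.law _
    have k1 := Pe_not hq4 (fun w => φ (sp (2 * d₀ + 1) w).1 (sp (2 * d₀ + 1) w).2)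
    have k2 := Pool.CHN.Im.Pe hsp (fun w => φ w.1 w.2)
    have k3 := Pe_not hq1 (Nr B X ec dv δ ((d₀ + 1) * K2 d₀ C δ κ₁)
      (fun b => if ∀ i, |M (s (Sum.inr b)) i| ≤ Mb + R then M (s (Sum.inr b)) else 0))
    have k4 : Pe (Qc p ln B (2 * d₀ + 1)) (fun a => φ a
        (s (lk ln B (2 * d₀ + 1) (pt (2 * d₀ + 1) a (2 * d₀ + 1))))) ≤
        Pe (Qc p ln B (2 * d₀ + 1)) (Nr B X ec dv δ ((d₀ + 1) * K2 d₀ C δ κ₁)
      (fun b => if ∀ i, |M (s (Sum.inr b)) i| ≤ Mb + R then M (s (Sum.inr b)) else 0)) := by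
      refine Pe_mono' hq1.nonneg fun a ha hφa => ?_
      obtain ⟨hpos, -⟩ := Qn_pos hp _ a ha
      rw [hφ] at hφa
      obtain ⟨m1, m2⟩ := hφa
      have e2 : lk ln B (2 * d₀ + 1) (pt (2 * d₀ + 1) a (2 * d₀ + 1)) =
          Sum.inr (B (pt (2 * d₀ + 1) a (2 * d₀ + 1))) := by
        rw [lk_odd ln B (by omega)]
      rw [e2] at m2
      rw [hD] at m1
      refine ⟨m1, ?_⟩
      intro i
      have m3 : ∀ i, |M a i| ≤ Mb := by
        intro i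
        rw [hM, hMb]
        exact Mv_le hC hδ (fun j hj i => (H.P i).siz _ (hpos _ (by omega)))
          (fun j hj => hsz _ (hpos _ (by omega))) m1 i
      have m4 : ∀ i, |M (s (Sum.inr (B (pt (2 * d₀ + 1) a (2 * d₀ + 1))))) i| ≤ Mb + R := by
        intro i
        have x1 := abs_le.1 (m2 i)
        have x2 := abs_le.1 (m3 i)
        rw [abs_le]
        constructor <;> linarith [x1.1, x1.2, x2.1, x2.2]
      beta_reduce
      rw [if_pos m4, ← hR]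
      have m5 := m2 i
      rw [hM] at m5 ⊢
      exact m5
    linarith

end Pool.CHN
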