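import Pool.Agent.H64.CHN.Lin

/-!
# Chains of copies: the time of the last meeting is full
-/

set_option autoImplicit false

namespace Pool.CHN

open Finset Real Matrix
open Pool.Agent.H49.Ent Pool.Agent.H32.Dense Pool.STK Pool.POT Pool.TQ
open Pool.K2S (Pe)
open Pool.LPX (Crd NFz NFu tp)

variable {Ω β Λ υ σ ζ : Type} {d₀ : ℕ}

variable [Fintype Ω] {p : Ω → ℝ} {B : Ω → β} {ln : Ω → Λ} {Z : Ω → ζ} {Y : Ω → υ} {S : Ω → σ}
  {t : Ω → ℤ} {ec Pc : Fin d₀ → Ω → ℤ} {ap : Fin d₀ → Ω → ℝ} {X : ℕ} {C ρ c₁ d : ℝ}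

/-- The velocities of all lines. -/
theorem Wc_ec {δT : Type} {v : Ω → δT} (H : Chb p B ln Z Y S t ec Pc ap X C ρ c₁ d) {N : ℕ}
    {w w' : Tn Ω (2 * N + 1)} (hw : 0 < Qc p ln B (2 * N + 1) w)
    (hw' : 0 < Qc p ln B (2 * N + 1) w') (e : Wc B ec Y v t N w = Wc B ec Y v t N w') {j : ℕ}
    (hj : j ≤ N) : ecv ec (pt _ w (2 * j)) = ecv ec (pt _ w' (2 * j)) := by
  have hp := H.law.nonneg
  unfold Wc at e
  simp only [Prod.mk.injEq] at e
  rcases Nat.lt_or_ge j N with h1 | h1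
  · exact congrFun e.2.2.2.2 ⟨j, h1⟩
  · have h2 : j = N := by omega
    rw [h2]
    exact Ye H _ _ ((Qn_pos hp _ w hw).1 _ (by omega)) ((Qn_pos hp _ w' hw').1 _ (by omega))
      e.2.2.1

theorem Wc_Xv {δT : Type} {v : Ω → δT} (H : Chb p B ln Z Y S t ec Pc ap X C ρ c₁ d) {N : ℕ}
    {w w' : Tn Ω (2 * N + 1)} (hw : 0 < Qc p ln B (2 * N + 1) w)
    (hw' : 0 < Qc p ln B (2 * N + 1) w') (e : Wc B ec Y v t N w = Wc B ec Y v t N w') {j : ℕ}
    (hj : j ≤ N) : Xv X ec (pt _ w (2 * j)) = Xv X ec (pt _ w' (2 * j)) := by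
  have h1 := Wc_ec H hw hw' e hj
  unfold Xv
  congr 1
  funext i
  have h2 : ec i (pt (2 * N + 1) w (2 * j)) = ec i (pt (2 * N + 1) w' (2 * j)) := congrFun h1 i
  rw [h2]

theorem Wc_Am {δT : Type} {v : Ω → δT} (H : Chb p B ln Z Y S t ec Pc ap X C ρ c₁ d)
    {w w' : Tn Ω (2 * (d₀ + 1) + 1)} (hw : 0 < Qc p ln B (2 * (d₀ + 1) + 1) w)
    (hw' : 0 < Qc p ln B (2 * (d₀ + 1) + 1) w')
    (e : Wc B ec Y v t (d₀ + 1) w = Wc B ec Y v t (d₀ + 1) w') :
    Am X ec (fun j => pt _ w (2 * j)) = Am X ec fun j => pt _ w' (2 * j) := by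
  ext i j
  exact congrFun (Wc_Xv H hw hw' e (j := (j : ℕ)) (by have := j.2; omega)) i

/-- **The times of the meetings** are determined by the condition and the last one. -/
theorem times_close {δT : Type} {v : Ω → δT} (H : Chb p B ln Z Y S t ec Pc ap X C ρ c₁ d)
    (hC : 1 ≤ C) (w₀ : Ω) {δ : ℝ} (hδ : 0 < δ) {w w' : Tn Ω (2 * (d₀ + 1) + 1)}
    (hw : 0 < Qc p ln B (2 * (d₀ + 1) + 1) w) (hw' : 0 < Qc p ln B (2 * (d₀ + 1) + 1) w')
    (e : Wc B ec Y v t (d₀ + 1) w = Wc B ec Y v t (d₀ + 1) w')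
    (et : t (pt _ w (2 * (d₀ + 1))) = t (pt _ w' (2 * (d₀ + 1))))
    (hd : δ ≤ |(Am X ec fun j => pt _ w (2 * j)).det|) {j : ℕ} (hj : j < d₀ + 1) :
    |(t (pt _ w (2 * j + 1)) : ℝ) - t (pt _ w' (2 * j + 1))| ≤
      (j + 1) * ((d₀ + 1) * (2 * E1 d₀ C * (Ka d₀ C / δ))) := by
  have hp := H.law.nonneg
  obtain ⟨hpos, -⟩ := Qn_pos hp _ w hw
  obtain ⟨hpos', -⟩ := Qn_pos hp _ w' hw'
  have hXv := fun (k : ℕ) (hk : k ≤ d₀ + 1) => Wc_Xv H hw hw' e hk
  have hA := Wc_Am H hw hw' e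
  obtain ⟨A, hAd⟩ : ∃ A, A = Am X ec fun j => pt (2 * (d₀ + 1) + 1) w (2 * j) := ⟨_, rfl⟩
  rw [← hAd] at hd hA
  have eB : B (pt _ w 0) = B (pt _ w' 0) := by
    unfold Wc at e
    simp only [Prod.mk.injEq] at e
    exact e.2.2.2.1
  have eY : Y (pt _ w (2 * (d₀ + 1))) = Y (pt _ w' (2 * (d₀ + 1))) := by
    unfold Wc at e
    simp only [Prod.mk.injEq] at e
    exact e.2.2.1
  obtain ⟨τ, hτ⟩ : ∃ τ : Fin (d₀ + 1) → ℝ, τ = fun j : Fin (d₀ + 1) =>
    (((t (pt (2 * (d₀ + 1) + 1) w (2 * (j : ℕ) + 1)) : ℝ) -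
      t (pt (2 * (d₀ + 1) + 1) w (2 * (j : ℕ)))) -
    ((t (pt (2 * (d₀ + 1) + 1) w' (2 * (j : ℕ) + 1)) : ℝ) -
      t (pt (2 * (d₀ + 1) + 1) w' (2 * (j : ℕ))))) :=
    ⟨_, rfl⟩
  have h1 : ∀ i, |(A *ᵥ τ) i| ≤ 2 * E1 d₀ C := by
    intro i
    have r1 := times_rel H hC w₀ hw i
    have r2 := times_rel H hC w₀ hw' i
    have eg : gk p B t Pc ap w₀ (B (pt _ w 0)) (pt _ w (2 * (d₀ + 1))) =
        gk p B t Pc ap w₀ (B (pt _ w' 0)) (pt _ w' (2 * (d₀ + 1))) := by
      rw [eB]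
      unfold gk
      congr 1
      funext i
      rw [(H.P i).da _ _ (hpos _ (by omega)) (hpos' _ (by omega)) eY]
    rw [← eg, ← et, ← hXv (d₀ + 1) le_rfl] at r2
    have es : (A *ᵥ τ) i = ∑ j ∈ Finset.range (d₀ + 1),
        ((t (pt (2 * (d₀ + 1) + 1) w (2 * j + 1)) : ℝ) - t (pt (2 * (d₀ + 1) + 1) w (2 * j))) *
        Xv X ec (pt _ w (2 * j)) i - ∑ j ∈ Finset.range (d₀ + 1),
        ((t (pt (2 * (d₀ + 1) + 1) w' (2 * j + 1)) : ℝ) -
          t (pt (2 * (d₀ + 1) + 1) w' (2 * j))) * Xv X ec (pt _ w' (2 * j)) i := by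
      rw [← Finset.sum_sub_distrib, Finset.sum_range]
      unfold Matrix.mulVec dotProduct
      refine Finset.sum_congr rfl fun j _ => ?_
      have e1 : A i j = Xv X ec (pt (2 * (d₀ + 1) + 1) w (2 * (j : ℕ))) i := by rw [hAd]; rfl
      show A i j * τ j = _
      rw [← hXv j (by have := j.2; omega), e1, hτ]
      ring
    rw [es]
    rw [abs_le] at r1 r2 ⊢
    constructor <;> linarith [r1.1, r1.2, r2.1, r2.2]
  have hne : IsUnit A.det := isUnit_iff_ne_zero.2 (by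
    intro e
    rw [e, abs_zero] at hd
    linarith)
  have h2 : τ = A⁻¹ *ᵥ (A *ᵥ τ) := by
    rw [Matrix.mulVec_mulVec, Matrix.nonsing_inv_mul _ hne, Matrix.one_mulVec]
  have hE : 0 ≤ 2 * E1 d₀ C := by
    unfold E1
    positivity
  have h3 : ∀ j, |τ j| ≤ (d₀ + 1) * (2 * E1 d₀ C * (Ka d₀ C / δ)) := by
    intro j
    rw [h2]
    refine mulVec_le h1 (fun a b => inv_le hC hδ (fun a b => ?_) hd a b) hE j
    rw [hAd]
    exact Xv_le hC (fun i => (H.P i).siz _ (hpos _ (by have := b.2; omega))) a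
  -- the sum
  have h4 : ∀ k : ℕ, k ≤ d₀ + 1 →
      |(t (pt _ w (2 * k)) : ℝ) - t (pt _ w' (2 * k))| ≤
      k * ((d₀ + 1) * (2 * E1 d₀ C * (Ka d₀ C / δ))) := by
    intro k hk
    have s1 := time_tel hp H.tB hw k (by omega)
    have s2 := time_tel hp H.tB hw' k (by omega)
    have s3 := H.tB _ _ (hpos 0 (by omega)) (hpos' 0 (by omega)) eB
    have s4 : (t (pt _ w (2 * k)) : ℝ) - t (pt _ w' (2 * k)) = ∑ j ∈ Finset.range k,
        (((t (pt (2 * (d₀ + 1) + 1) w (2 * j + 1)) : ℝ) - t (pt (2 * (d₀ + 1) + 1) w (2 * j))) -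
        ((t (pt (2 * (d₀ + 1) + 1) w' (2 * j + 1)) : ℝ) -
          t (pt (2 * (d₀ + 1) + 1) w' (2 * j)))) := by
      rw [Finset.sum_sub_distrib, s1, s2, s3]
      ring
    rw [s4]
    refine (Finset.abs_sum_le_sum_abs _ _).trans ?_
    calc _ ≤ ∑ _j ∈ Finset.range k, ((d₀ + 1) * (2 * E1 d₀ C * (Ka d₀ C / δ))) := by
          refine Finset.sum_le_sum fun j hj => ?_
          have hj2 := Finset.mem_range.1 hj
          have := h3 ⟨j, by omega⟩
          rw [hτ] at this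
          exact this
      _ = _ := by
          rw [Finset.sum_const, Finset.card_range, nsmul_eq_mul]
  have h5 := h4 (j + 1) (by omega)
  have b1 := H.tB _ _ (hpos (2 * j + 1) (by omega)) (hpos (2 * j + 2) (by omega))
    (same_ball hp hw (i := j) (by omega))
  have b2 := H.tB _ _ (hpos' (2 * j + 1) (by omega)) (hpos' (2 * j + 2) (by omega))
    (same_ball hp hw' (i := j) (by omega))
  rw [b1, b2]
  push_cast at h5
  exact h5

/-- The times are few if each of them is. -/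
theorem Tt_sum {n : ℕ} {r : Tn Ω n → ℝ} (hr : ∀ w, 0 ≤ r w) {τ : Type} (W : Tn Ω n → τ) {b : ℝ} :
    ∀ j : ℕ, (∀ i, i < j → CH r (fun w => t (pt n w (2 * i + 1))) W ≤ b) →
      CH r (Tt t n j) W ≤ j * b
  | 0, _ => by
    rw [CH_eq_zero hr]
    · simp
    · intro w w' _ _ _
      funext i
      exact i.elim0
  | j + 1, h => by
    have ih := Tt_sum hr W j fun i hi => h i (by omega)
    have s1 : CH r (Tt t n (j + 1)) W ≤ CH r (fun w => (t (pt n w (2 * j + 1)), Tt t n j w)) W := by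
      refine CH_mono_left hr ?_
      intro w w' _ _ e
      simp only [Prod.mk.injEq] at e
      funext i
      rcases Nat.lt_or_ge i j with h1 | h1
      · exact congrFun e.1.2 ⟨i, h1⟩
      · have h2 : (i : ℕ) = j := by have := i.2; omega
        unfold Tt
        rw [h2]
        exact e.1.1
    have s2 := h j (by omega)
    have s3 := CH_subadd hr (fun w => t (pt n w (2 * j + 1))) (Tt t n j) W
    push_cast
    linarith

/-- The radius of the times. -/
noncomputable def R1 (d₀ : ℕ) (C δ : ℝ) : ℝ :=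
  (d₀ + 1) * ((d₀ + 1) * (2 * E1 d₀ C * (Ka d₀ C / δ)))

/-- **The time of the last meeting is full** given the condition. -/
theorem sig_full {δT : Type} (H : Chb p B ln Z Y S t ec Pc ap X C ρ c₁ d) (hd : 0 ≤ d)
    (hC : 1 ≤ C) (v : Ω → δT) (hfew : CH p v (fun ω => (Z ω, ecv ec ω)) ≤ d) {δ c : ℝ}
    (hδ : 0 < δ)
    (hsl : Pe (Qc p ln B (2 * (d₀ + 1) + 1))
      (fun w => |(Am X ec fun j => pt _ w (2 * j)).det| < δ) ≤ c) :
    X * Real.log 2 - ((3 * (d₀ + 1) + 3) * d + (d₀ + 1) * Real.log (2 * R1 d₀ C δ + 1) +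
      c * ((d₀ + 1) * (X * Real.log 2))) ≤
      CH (Qc p ln B (2 * (d₀ + 1) + 1)) (fun w => t (pt _ w (2 * (d₀ + 1))))
        (Wc B ec Y v t (d₀ + 1)) := by
  classical
  have hp := H.law.nonneg
  obtain ⟨q, hq⟩ : ∃ q, q = Qc p ln B (2 * (d₀ + 1) + 1) := ⟨_, rfl⟩
  obtain ⟨W, hW⟩ : ∃ W, W = Wc B ec Y v t (d₀ + 1) := ⟨_, rfl⟩
  have hql : IsLaw q := by rw [hq]; exact Qn_law H.law _
  have hqn := hql.nonneg
  obtain ⟨w₀, -⟩ : ∃ w₀ : Ω, 0 < p w₀ := by
    by_contra hcon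
    push Not at hcon
    have h1 := H.law.sum_one
    have h2 : ∑ ω, p ω ≤ 0 := Finset.sum_nonpos fun ω _ => hcon ω
    linarith
  have h1 := T_full H hd v hfew
  have h2 := CH_le_add hqn (Tt t (2 * (d₀ + 1) + 1) (d₀ + 1))
    (fun w => t (pt (2 * (d₀ + 1) + 1) w (2 * (d₀ + 1)))) W
  have hR0 : 0 ≤ R1 d₀ C δ := by
    unfold R1 E1
    have := Ka_one (d₀ := d₀) hC
    positivity
  have hl2 : 0 ≤ Real.log 2 := Real.log_nonneg (by norm_num)
  obtain ⟨G, hG⟩ : ∃ G : Tn Ω (2 * (d₀ + 1) + 1) → Prop, G = fun w =>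
    |(Am X ec fun j => pt _ w (2 * j)).det| < δ := ⟨_, rfl⟩
  have hdG : Det q (fun w => (t (pt (2 * (d₀ + 1) + 1) w (2 * (d₀ + 1))), W w)) G := by
    intro w w' a b e
    rw [hq] at a b
    have e2 : Wc B ec Y v t (d₀ + 1) w = Wc B ec Y v t (d₀ + 1) w' := by
      rw [← hW]
      exact (Prod.ext_iff.mp e).2
    rw [hG]
    beta_reduce
    rw [Wc_Am H a b e2]
  have h3 : CH q (Tt t (2 * (d₀ + 1) + 1) (d₀ + 1))
      (fun w => (t (pt (2 * (d₀ + 1) + 1) w (2 * (d₀ + 1))), W w)) ≤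
      (d₀ + 1) * Real.log (2 * R1 d₀ C δ + 1) + c * ((d₀ + 1) * (X * Real.log 2)) := by
    rw [CH_ev hqn _ _ hdG]
    have hle := law_ev hql G
    have a0 : law q G True ≤ c := by
      have : Pe q G ≤ c := by rw [hG, hq]; exact hsl
      exact this
    have b0 := law_nonneg hqn G True
    have b1 := law_nonneg hqn G False
    -- all times
    have c1 : law q G True * CH (cond q G True) (Tt t (2 * (d₀ + 1) + 1) (d₀ + 1))
        (fun w => (t (pt (2 * (d₀ + 1) + 1) w (2 * (d₀ + 1))), W w)) ≤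
        c * ((d₀ + 1) * (X * Real.log 2)) := by
      rcases b0.eq_or_lt with e | e
      · rw [← e, zero_mul]
        have : 0 ≤ c := by linarith
        positivity
      · have hl : IsLaw (cond q G True) := ⟨cond_nonneg hqn _ _, sum_cond _ _ e.ne'⟩
        have h4 := Tt_sum (t := t) hl.nonneg
          (fun w => (t (pt (2 * (d₀ + 1) + 1) w (2 * (d₀ + 1))), W w)) (b := X * Real.log 2)
          (d₀ + 1) (by
            intro i hi
            refine Pool.LPX.time_le hl _ _ ?_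
            intro w hw
            have h5 := ((cond_pos_iff hqn G True w).1 hw).1
            rw [hq] at h5
            exact H.t0 _ ((Qn_pos hp _ w h5).1 _ (by omega)))
        push_cast at h4
        refine mul_le_mul a0 h4 (CH_nonneg hl.nonneg _ _) (b0.trans a0)
    have c2 : law q G False * CH (cond q G False) (Tt t (2 * (d₀ + 1) + 1) (d₀ + 1))
        (fun w => (t (pt (2 * (d₀ + 1) + 1) w (2 * (d₀ + 1))), W w)) ≤
        (d₀ + 1) * Real.log (2 * R1 d₀ C δ + 1) := by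
      have hlog : 0 ≤ (d₀ + 1) * Real.log (2 * R1 d₀ C δ + 1) := by
        have : 0 ≤ Real.log (2 * R1 d₀ C δ + 1) := Real.log_nonneg (by linarith)
        positivity
      rcases b1.eq_or_lt with e | e
      · rw [← e, zero_mul]
        exact hlog
      · have hl : IsLaw (cond q G False) := ⟨cond_nonneg hqn _ _, sum_cond _ _ e.ne'⟩
        have h4 := Tt_sum (t := t) hl.nonneg
          (fun w => (t (pt (2 * (d₀ + 1) + 1) w (2 * (d₀ + 1))), W w))
          (b := Real.log (2 * R1 d₀ C δ + 1)) (d₀ + 1) (by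
            intro i hi
            refine Pool.LPX.CH_few hl _ _ ?_
            intro w w' hw hw' e2
            obtain ⟨x1, x2⟩ := (cond_pos_iff hqn G False w).1 hw
            obtain ⟨y1, -⟩ := (cond_pos_iff hqn G False w').1 hw'
            rw [hq] at x1 y1
            have x3 : δ ≤ |(Am X ec fun j => pt _ w (2 * j)).det| := by
              rw [hG] at x2
              simpa using x2
            have e3 : Wc B ec Y v t (d₀ + 1) w = Wc B ec Y v t (d₀ + 1) w' := by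
              rw [← hW]
              exact (Prod.ext_iff.mp e2).2
            have h5 := times_close H hC w₀ hδ x1 y1 e3 (Prod.ext_iff.mp e2).1 x3 hi
            push_cast
            refine h5.trans ?_
            unfold R1
            refine mul_le_mul_of_nonneg_right ?_ ?_
            · have : ((i + 1 : ℕ) : ℝ) ≤ ((d₀ + 1 : ℕ) : ℝ) := by exact_mod_cast hi
              push_cast at this
              exact this
            · unfold E1
              have := Ka_one (d₀ := d₀) hC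
              positivity)
        push_cast at h4
        have h6 : law q G False ≤ 1 := by linarith
        calc _ ≤ 1 * ((d₀ + 1) * Real.log (2 * R1 d₀ C δ + 1)) :=
              mul_le_mul h6 h4 (CH_nonneg hl.nonneg _ _) zero_le_one
          _ = _ := one_mul _
    linarith
  rw [← hq, ← hW]
  rw [← hq, ← hW] at h1
  linarith

end Pool.CHN
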